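import Mathlib

set_option autoImplicit false

namespace Pool.Agent.N347.Hess

open MvPolynomial Module

section comp

variable {σ : Type*}

attribute [local instance] MvPolynomial.gradedAlgebra

lemma dec (φ : MvPolynomial σ ℂ) (i : ℕ) :
    ((DirectSum.decompose (homogeneousSubmodule σ ℂ) φ) i : MvPolynomial σ ℂ) =
      homogeneousComponent i φ := decomposition.decompose'_apply φ i

lemma comp_mul_le {P q : MvPolynomial σ ℂ} {m k : ℕ} (hP : P.IsHomogeneous m) (h : m ≤ k) :
    homogeneousComponent k (P * q) = P * homogeneousComponent (k - m) q := by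
  have h1 := DirectSum.coe_decompose_mul_of_left_mem_of_le (homogeneousSubmodule σ ℂ)
    (a := P) (b := q) (i := m) (n := k) hP h
  simpa only [dec] using h1

lemma comp_mul_lt {P q : MvPolynomial σ ℂ} {m k : ℕ} (hP : P.IsHomogeneous m) (h : ¬ m ≤ k) :
    homogeneousComponent k (P * q) = 0 := by
  have h1 := DirectSum.coe_decompose_mul_of_left_mem_of_not_le (homogeneousSubmodule σ ℂ)
    (a := P) (b := q) (i := m) (n := k) hP h
  simpa only [dec] using h1

end comp

/-- exponents of degree `k` in three variables -/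
abbrev Ex (k : ℕ) := {d : Fin 3 → Fin (k + 1) // ∑ i, (d i : ℕ) = k}

lemma card_Ex0 : Fintype.card (Ex 0) = 1 := by decide
lemma card_Ex1 : Fintype.card (Ex 1) = 3 := by decide
lemma card_Ex2 : Fintype.card (Ex 2) = 6 := by decide

/-- the coefficients of degree `k` -/
noncomputable def coefMap (k : ℕ) : MvPolynomial (Fin 3) ℂ →ₗ[ℂ] (Ex k → ℂ) :=
  LinearMap.pi fun d => lcoeff ℂ (Finsupp.equivFunOnFinite.symm fun i => (d.1 i : ℕ))

lemma coefMap_inj {k : ℕ} {p : MvPolynomial (Fin 3) ℂ} (hp : p.IsHomogeneous k)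
    (h : coefMap k p = 0) : p = 0 := by
  ext d
  by_cases hd : d.degree = k
  · have hd' : ∑ i, d i = k := by
      rw [← hd, Finsupp.degree_eq_sum]
    have hle : ∀ i, d i < k + 1 := by
      intro i
      have := Finset.single_le_sum (f := fun i => d i) (fun _ _ => Nat.zero_le _)
        (Finset.mem_univ i)
      omega
    have h1 := congrFun h ⟨fun i => ⟨d i, hle i⟩, hd'⟩
    have h2 : (Finsupp.equivFunOnFinite.symm fun i => ((⟨d i, hle i⟩ : Fin (k + 1)) : ℕ)) = d := by
      ext i; rfl
    have h3 : coeff (Finsupp.equivFunOnFinite.symm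
        fun i => ((⟨d i, hle i⟩ : Fin (k + 1)) : ℕ)) p = 0 := h1
    rw [h2] at h3
    simpa using h3
  · rw [hp.coeff_eq_zero hd]
    simp

instance finite_hom (k : ℕ) : Module.Finite ℂ (homogeneousSubmodule (Fin 3) ℂ k) := by
  apply Module.Finite.of_injective ((coefMap k).comp (homogeneousSubmodule (Fin 3) ℂ k).subtype)
  rw [← LinearMap.ker_eq_bot, LinearMap.ker_eq_bot']
  intro p hp
  exact Subtype.ext (coefMap_inj p.2 hp)

lemma finrank_hom_le (k : ℕ) :
    finrank ℂ (homogeneousSubmodule (Fin 3) ℂ k) ≤ Fintype.card (Ex k) := by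
  have h := LinearMap.finrank_le_finrank_of_injective
    (f := (coefMap k).comp (homogeneousSubmodule (Fin 3) ℂ k).subtype) (by
      rw [← LinearMap.ker_eq_bot, LinearMap.ker_eq_bot']
      intro p hp
      exact Subtype.ext (coefMap_inj p.2 hp))
  simpa using h

/-- bound for the dimension of the homogeneous polynomials of degree `k` divisible by `m`
pairwise different linear forms -/
def hd (k m : ℕ) : ℕ := if m ≤ k then Fintype.card (Ex (k - m)) else 0

lemma prod_hom {κ : Type*} (s : Finset κ) (l : κ → MvPolynomial (Fin 3) ℂ)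
    (hl : ∀ i ∈ s, (l i).IsHomogeneous 1) : (∏ i ∈ s, l i).IsHomogeneous s.card := by
  have := IsHomogeneous.prod s l (fun _ => 1) hl
  simpa using this

lemma mem_of_dvd {κ : Type*} (s : Finset κ) (l : κ → MvPolynomial (Fin 3) ℂ)
    (hl : ∀ i ∈ s, (l i).IsHomogeneous 1)
    (hrel : (s : Set κ).Pairwise (Function.onFun IsRelPrime l)) {k : ℕ}
    {p : MvPolynomial (Fin 3) ℂ} (hp : p.IsHomogeneous k) (hd : ∀ i ∈ s, l i ∣ p) :
    (s.card ≤ k ∧ ∃ q : MvPolynomial (Fin 3) ℂ, q.IsHomogeneous (k - s.card) ∧
      p = (∏ i ∈ s, l i) * q) ∨ (¬ s.card ≤ k ∧ p = 0) := by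
  obtain ⟨q, hq⟩ := Finset.prod_dvd_of_isRelPrime hrel hd
  have hP := prod_hom s l hl
  have h1 : homogeneousComponent k p = p := homogeneousComponent_eq_self hp
  by_cases h : s.card ≤ k
  · left
    refine ⟨h, homogeneousComponent (k - s.card) q, homogeneousComponent_isHomogeneous _ _, ?_⟩
    rw [← comp_mul_le hP h, ← hq, h1]
  · right
    refine ⟨h, ?_⟩
    rw [← h1, hq, comp_mul_lt hP h]

/-- the homogeneous polynomials of degree `k` divisible by the forms `l i`, `i ∈ s` -/
noncomputable def Dv {κ : Type*} (s : Finset κ) (l : κ → MvPolynomial (Fin 3) ℂ) (k : ℕ) :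
    Submodule ℂ (MvPolynomial (Fin 3) ℂ) where
  carrier := {p | p.IsHomogeneous k ∧ ∀ i ∈ s, l i ∣ p}
  add_mem' := fun h1 h2 => ⟨h1.1.add h2.1, fun i hi => dvd_add (h1.2 i hi) (h2.2 i hi)⟩
  zero_mem' := ⟨isHomogeneous_zero _ _ _, fun _ _ => dvd_zero _⟩
  smul_mem' := fun c _ h => ⟨(homogeneousSubmodule (Fin 3) ℂ k).smul_mem c h.1, fun i hi => by
    rw [smul_eq_C_mul]; exact (h.2 i hi).mul_left _⟩

lemma Dv_finite {κ : Type*} (s : Finset κ) (l : κ → MvPolynomial (Fin 3) ℂ) (k : ℕ) :
    Module.Finite ℂ (Dv s l k) := by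
  have h : Dv s l k ≤ homogeneousSubmodule (Fin 3) ℂ k := fun p hp => hp.1
  exact Module.Finite.of_injective (Submodule.inclusion h) (Submodule.inclusion_injective h)

lemma finrank_Dv_le {κ : Type*} (s : Finset κ) (l : κ → MvPolynomial (Fin 3) ℂ)
    (hl : ∀ i ∈ s, (l i).IsHomogeneous 1)
    (hrel : (s : Set κ).Pairwise (Function.onFun IsRelPrime l)) (k : ℕ) :
    finrank ℂ (Dv s l k) ≤ hd k s.card := by
  by_cases h : s.card ≤ k
  · unfold hd
    rw [if_pos h]
    refine le_trans ?_ (finrank_hom_le _)
    have hle : Dv s l k ≤ (homogeneousSubmodule (Fin 3) ℂ (k - s.card)).map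
        (LinearMap.mulLeft ℂ (∏ i ∈ s, l i)) := by
      rintro p ⟨hp, hpd⟩
      rcases mem_of_dvd s l hl hrel hp hpd with ⟨_, q, hq, e⟩ | ⟨h2, _⟩
      · exact ⟨q, hq, e.symm⟩
      · exact absurd h h2
    refine le_trans (Submodule.finrank_mono hle) ?_
    exact Submodule.finrank_map_le _ _
  · unfold hd
    rw [if_neg h]
    have hb : Dv s l k = ⊥ := by
      rw [eq_bot_iff]
      rintro p ⟨hp, hpd⟩
      rcases mem_of_dvd s l hl hrel hp hpd with ⟨h2, _⟩ | ⟨_, h2⟩
      · exact absurd h2 h
      · exact h2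
    rw [hb]
    simp

/-- two linear forms are relatively prime if the first vanishes somewhere where the second does
not -/
lemma relPrime_of_eval {l₁ l₂ : MvPolynomial (Fin 3) ℂ} (h1 : l₁.IsHomogeneous 1)
    (h2 : l₂.IsHomogeneous 1) (h0 : l₁ ≠ 0) (a : Fin 3 → ℂ) (ha1 : eval a l₁ = 0)
    (ha2 : eval a l₂ ≠ 0) : IsRelPrime l₁ l₂ := by
  have h0' : l₂ ≠ 0 := by rintro rfl; simp at ha2
  rintro d ⟨q1, hq1⟩ ⟨q2, hq2⟩
  have hd0 : d ≠ 0 := by rintro rfl; simp at hq1; exact h0 hq1
  have hq10 : q1 ≠ 0 := by rintro rfl; simp at hq1; exact h0 hq1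
  have hq20 : q2 ≠ 0 := by rintro rfl; simp at hq2; exact h0' hq2
  have t1 : d.totalDegree + q1.totalDegree = 1 := by
    rw [← totalDegree_mul_of_isDomain hd0 hq10, ← hq1]
    exact h1.totalDegree h0
  have t2 : d.totalDegree + q2.totalDegree = 1 := by
    rw [← totalDegree_mul_of_isDomain hd0 hq20, ← hq2]
    exact h2.totalDegree h0'
  rcases Nat.eq_zero_or_pos d.totalDegree with h | h
  · obtain ⟨c, hc⟩ := totalDegree_eq_zero_iff_eq_C.1 h |> fun h => (⟨_, h⟩ : ∃ c, d = C c)
    rw [hc]
    have hc0 : c ≠ 0 := by rintro rfl; simp at hc; exact hd0 hc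
    exact (isUnit_iff_ne_zero.2 hc0).map C
  · exfalso
    have e1 : q1.totalDegree = 0 := by omega
    have e2 : q2.totalDegree = 0 := by omega
    rw [totalDegree_eq_zero_iff_eq_C] at e1 e2
    set c1 := coeff 0 q1
    set c2 := coeff 0 q2
    have hc1 : c1 ≠ 0 := by intro h; rw [h] at e1; simp at e1; exact hq10 e1
    have hc2 : c2 ≠ 0 := by intro h; rw [h] at e2; simp at e2; exact hq20 e2
    rw [hq1, e1] at ha1
    rw [hq2, e2] at ha2
    simp only [map_mul, eval_C] at ha1 ha2
    have : eval a d = 0 := by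
      rcases mul_eq_zero.1 ha1 with h | h
      · exact h
      · exact absurd h hc1
    rw [this] at ha2
    simp at ha2

/-! ### A filtration bound -/

/-- Let `S` be a finite-dimensional space of functions on a finite set with an injective height
function. The dimension of `S` is at most the sum over `w` of the dimensions of subspaces
containing the values at `w` of the functions in `S` which vanish at the lower points. -/
lemma flow {ι V : Type*} [Fintype ι] [AddCommGroup V] [Module ℂ V] (S : Submodule ℂ (ι → V))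
    [Module.Finite ℂ S] (h : ι → ℕ) (hinj : Function.Injective h) (d : ι → ℕ)
    (D : ι → Submodule ℂ V) (hfin : ∀ w, Module.Finite ℂ (D w)) (hD : ∀ w, finrank ℂ (D w) ≤ d w)
    (hS : ∀ f ∈ S, ∀ w, (∀ u, h u < h w → f u = 0) → f w ∈ D w) :
    finrank ℂ S ≤ ∑ w, d w := by
  classical
  let SN : ℕ → Submodule ℂ (ι → V) := fun N =>
    { carrier := {f | f ∈ S ∧ ∀ u, h u < N → f u = 0}
      add_mem' := fun h1 h2 => ⟨add_mem h1.1 h2.1, fun u hu => by simp [h1.2 u hu, h2.2 u hu]⟩
      zero_mem' := ⟨zero_mem _, fun _ _ => rfl⟩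
      smul_mem' := fun c _ h1 => ⟨S.smul_mem c h1.1, fun u hu => by simp [h1.2 u hu]⟩ }
  have hSN : ∀ N, SN N ≤ S := fun N f hf => hf.1
  have hfinN : ∀ N, Module.Finite ℂ (SN N) := fun N =>
    Module.Finite.of_injective (Submodule.inclusion (hSN N)) (Submodule.inclusion_injective _)
  have key : ∀ N, finrank ℂ S ≤ ∑ w ∈ Finset.univ.filter (fun w => h w < N), d w +
      finrank ℂ (SN N) := by
    intro N
    induction N with
    | zero =>
      have : SN 0 = S := by
        ext f
        constructor
        · exact fun hf => hf.1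
        · exact fun hf => ⟨hf, fun u hu => absurd hu (Nat.not_lt_zero _)⟩
      rw [this]
      simp
    | succ N ih =>
      by_cases hw : ∃ w, h w = N
      · obtain ⟨w, hw⟩ := hw
        have := hfinN N
        have := hfinN (N + 1)
        have := hfin w
        let φ : SN N →ₗ[ℂ] V := (LinearMap.proj w).comp (SN N).subtype
        have h1 := LinearMap.finrank_range_add_finrank_ker φ
        have h2 : finrank ℂ (LinearMap.range φ) ≤ d w := by
          refine le_trans (Submodule.finrank_mono ?_) (hD w)
          rintro x ⟨f, rfl⟩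
          exact hS f.1 f.2.1 w (fun u hu => f.2.2 u (by rw [← hw]; exact hu))
        have h3 : finrank ℂ (LinearMap.ker φ) ≤ finrank ℂ (SN (N + 1)) := by
          let ψ : LinearMap.ker φ →ₗ[ℂ] SN (N + 1) :=
            { toFun := fun f => ⟨f.1.1, f.1.2.1, fun u hu => by
                rcases Nat.lt_succ_iff_lt_or_eq.1 hu with h4 | h4
                · exact f.1.2.2 u h4
                · have : u = w := hinj (by rw [h4, hw])
                  rw [this]
                  exact f.2⟩
              map_add' := fun _ _ => rfl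
              map_smul' := fun _ _ => rfl }
          apply LinearMap.finrank_le_finrank_of_injective (f := ψ)
          intro f g hfg
          have : f.1.1 = g.1.1 := congrArg (fun x : SN (N + 1) => x.1) hfg
          exact Subtype.ext (Subtype.ext this)
        have h4 : Finset.univ.filter (fun u => h u < N + 1) =
            insert w (Finset.univ.filter (fun u => h u < N)) := by
          ext u
          simp only [Finset.mem_filter, Finset.mem_univ, true_and, Finset.mem_insert]
          constructor
          · intro hu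
            rcases Nat.lt_succ_iff_lt_or_eq.1 hu with h5 | h5
            · exact Or.inr h5
            · exact Or.inl (hinj (by rw [h5, hw]))
          · rintro (rfl | hu) <;> omega
        rw [h4, Finset.sum_insert (by simp [hw])]
        omega
      · have h4 : Finset.univ.filter (fun u => h u < N + 1) =
            Finset.univ.filter (fun u => h u < N) := by
          ext u
          simp only [Finset.mem_filter, Finset.mem_univ, true_and]
          have : h u ≠ N := fun h => hw ⟨u, h⟩
          omega
        have h5 : SN (N + 1) = SN N := by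
          ext f
          constructor
          · exact fun hf => ⟨hf.1, fun u hu => hf.2 u (by omega)⟩
          · refine fun hf => ⟨hf.1, fun u hu => hf.2 u ?_⟩
            have : h u ≠ N := fun h => hw ⟨u, h⟩
            omega
        rw [h4, h5]
        exact ih
  obtain ⟨N, hN⟩ : ∃ N, ∀ u, h u < N :=
    ⟨(∑ u, h u) + 1, fun u => Nat.lt_succ_of_le
      (Finset.single_le_sum (f := h) (fun _ _ => Nat.zero_le _) (Finset.mem_univ u))⟩
  have h6 := key N
  have h7 : SN N = ⊥ := by
    rw [eq_bot_iff]
    rintro f ⟨_, hf⟩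
    funext u
    exact hf u (hN u)
  have h8 : Finset.univ.filter (fun w => h w < N) = Finset.univ := by
    ext u; simp [hN u]
  rw [h7, h8] at h6
  simpa using h6

end Pool.Agent.N347.Hess
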