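import Pool.Agent.N347.Hess.Spl

set_option autoImplicit false

namespace Pool.Agent.N347.Hess

open MvPolynomial Module

/-- the value of `x_a` at an integer point -/
def iv (p : Fin 3 → ℤ) (a : SInd 3) : ℤ := if a.2 then -p a.1 else p a.1

lemma eval_xv (p : Fin 3 → ℤ) (a : SInd 3) :
    eval (fun i => (p i : ℂ)) (xv a) = (iv p a : ℂ) := by
  unfold xv iv
  split_ifs <;> simp

/-- the linear form of a root -/
noncomputable def form (k : Fin 6) : MvPolynomial (Fin 3) ℂ := xv (rt k).1 - xv (rt k).2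

lemma form_hom (k : Fin 6) : (form k).IsHomogeneous 1 := (xv_hom _).sub (xv_hom _)

lemma pts : ∀ k l : Fin 6, k ≠ l → ∃ p : Fin 3 → Fin 3,
    iv (fun i => (p i : ℤ) - 1) (rt k).1 - iv (fun i => (p i : ℤ) - 1) (rt k).2 = 0 ∧
    iv (fun i => (p i : ℤ) - 1) (rt l).1 - iv (fun i => (p i : ℤ) - 1) (rt l).2 ≠ 0 := by
  decide +kernel

lemma form_ne (k : Fin 6) : form k ≠ 0 := by
  intro h
  have h1 : ∀ k : Fin 6, ∃ l, l ≠ k := by decide
  obtain ⟨l, hl⟩ := h1 k
  obtain ⟨p, _, hp2⟩ := pts l k hl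
  apply hp2
  have h2 := congrArg (eval (fun i => (((p i : ℤ) - 1 : ℤ) : ℂ))) h
  unfold form at h2
  rw [map_sub, eval_xv, eval_xv, map_zero] at h2
  exact_mod_cast h2

lemma form_rel (k l : Fin 6) (h : k ≠ l) : IsRelPrime (form k) (form l) := by
  obtain ⟨p, hp1, hp2⟩ := pts k l h
  refine relPrime_of_eval (form_hom k) (form_hom l) (form_ne k)
    (fun i => (((p i : ℤ) - 1 : ℤ) : ℂ)) ?_ ?_
  · unfold form
    rw [map_sub, eval_xv, eval_xv]
    exact_mod_cast hp1
  · unfold form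
    rw [map_sub, eval_xv, eval_xv]
    exact_mod_cast hp2

lemma act_inv_act {n : ℕ} (w : W n) (p : MvPolynomial (Fin n) ℂ) : act w⁻¹ (act w p) = p := by
  rw [← AlgHom.comp_apply, ← act_mul, inv_mul_cancel, act_one]
  rfl

lemma act_act_inv {n : ℕ} (w : W n) (p : MvPolynomial (Fin n) ℂ) : act w (act w⁻¹ p) = p := by
  rw [← AlgHom.comp_apply, ← act_mul, mul_inv_cancel, act_one]
  rfl

lemma act_rel {n : ℕ} (w : W n) {p q : MvPolynomial (Fin n) ℂ} (h : IsRelPrime p q) :
    IsRelPrime (act w p) (act w q) := by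
  intro d hp hq
  have h1 := map_dvd (act w⁻¹) hp
  have h2 := map_dvd (act w⁻¹) hq
  rw [act_inv_act] at h1 h2
  have h3 := (h h1 h2).map (act w)
  rwa [act_act_inv] at h3

lemma finrank_SF_le (k : ℕ) : finrank ℂ (SF k) ≤ ∑ w : W 3, hd k (low w).card := by
  apply flow (SF k) hgt hgt_inj _ (fun w => Dv (low w) (fun i => act w (form i)) k)
    (fun w => Dv_finite _ _ _)
  · intro w
    apply finrank_Dv_le
    · intro i _
      exact act_isHomogeneous w (form_hom i)
    · intro i _ j _ hij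
      exact act_rel w (form_rel i j hij)
  · rintro f ⟨hf1, hf2⟩ w hw
    refine ⟨hf2 w, fun i hi => ?_⟩
    have h1 := hf1 _ _ (rt_root i) w
    rw [hw (w * refl (rt i).1 (rt i).2) (Finset.mem_filter.1 hi).2, sub_zero,
      Ideal.mem_span_singleton] at h1
    exact h1

lemma sum_eq (k : ℕ) : ∑ w : W 3, hd k (low w).card =
    ∑ p : Equiv.Perm (Fin 3) × (Fin 3 → Bool), hd k (low (mkW p)).card :=
  (Equiv.sum_comp eW (fun w => hd k (low w).card)).symm

lemma hd0 (m : ℕ) : hd 0 m = if m = 0 then 1 else 0 := by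
  unfold hd
  rcases m with _ | m
  · simp [card_Ex0]
  · simp

lemma hd1 (m : ℕ) : hd 1 m = 3 * (if m = 0 then 1 else 0) + (if m = 1 then 1 else 0) := by
  unfold hd
  rcases m with _ | _ | m
  · simp [card_Ex1]
  · simp [card_Ex0]
  · simp

lemma hd2 (m : ℕ) : hd 2 m = 6 * (if m = 0 then 1 else 0) + 3 * (if m = 1 then 1 else 0) +
    (if m = 2 then 1 else 0) := by
  unfold hd
  rcases m with _ | _ | _ | m
  · simp [card_Ex2]
  · simp [card_Ex1]
  · simp [card_Ex0]
  · simp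

lemma finrank_SF0 : finrank ℂ (SF 0) ≤ 1 := by
  refine (finrank_SF_le 0).trans ?_
  rw [sum_eq]
  simp only [hd0]
  rw [sum0']

lemma finrank_SF1 : finrank ℂ (SF 1) ≤ 7 := by
  refine (finrank_SF_le 1).trans ?_
  rw [sum_eq]
  simp only [hd1]
  rw [Finset.sum_add_distrib, ← Finset.mul_sum, sum0', sum1']
  norm_num

lemma finrank_SF2 : finrank ℂ (SF 2) ≤ 29 := by
  refine (finrank_SF_le 2).trans ?_
  rw [sum_eq]
  simp only [hd2]
  rw [Finset.sum_add_distrib, Finset.sum_add_distrib, ← Finset.mul_sum, ← Finset.mul_sum, sum0',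
    sum1', sum2']
  norm_num

end Pool.Agent.N347.Hess
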