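import Pool.Agent.N347.Hess.Expl

set_option autoImplicit false

namespace Pool.Agent.N347.Hess

open MvPolynomial Module

/-- an injective linear map into a space of at most that dimension is surjective -/
lemma surj_of_inj {V U : Type*} [AddCommGroup V] [Module ℂ V] [Module.Finite ℂ V]
    [AddCommGroup U] [Module ℂ U] [Module.Finite ℂ U] (T : V →ₗ[ℂ] U)
    (hT : Function.Injective T) (h : finrank ℂ U ≤ finrank ℂ V) : Function.Surjective T := by
  rw [← LinearMap.range_eq_top]
  apply Submodule.eq_top_of_finrank_eq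
  apply le_antisymm (Submodule.finrank_le _)
  rw [LinearMap.finrank_range_of_inj hT]
  exact h

/-- degree zero splines are constant -/
lemma SF0_const (ρ : W 3 → MvPolynomial (Fin 3) ℂ) (h : ρ ∈ SF 0) :
    ∃ c : ℂ, ρ = fun _ => C c := by
  let T : ℂ →ₗ[ℂ] SF 0 :=
    { toFun := fun c => ⟨fun _ => C c, const_mem _, fun _ => isHomogeneous_C _ _⟩
      map_add' := fun a b => by
        apply Subtype.ext; funext v; exact C_add
      map_smul' := fun a b => by
        apply Subtype.ext; funext v
        show C (a * b) = a • C b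
        rw [C_mul, smul_eq_C_mul] }
  have hT : Function.Injective T := by
    intro a b hab
    have h1 := congrFun (congrArg Subtype.val hab) 1
    exact C_injective _ _ h1
  obtain ⟨c, hc⟩ := surj_of_inj T hT (by simpa using finrank_SF0) ⟨ρ, h⟩
  exact ⟨c, (congrArg Subtype.val hc).symm⟩

/-- a linear form -/
noncomputable def lf (c : Fin 3 → ℂ) : MvPolynomial (Fin 3) ℂ := ∑ i, C (c i) * X i

lemma lf_hom (c : Fin 3 → ℂ) : (lf c).IsHomogeneous 1 := by
  apply IsHomogeneous.sum
  intro i _
  have := (isHomogeneous_C (Fin 3) (c i)).mul (isHomogeneous_X ℂ i)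
  simpa using this

lemma lf_add (c d : Fin 3 → ℂ) : lf (c + d) = lf c + lf d := by
  unfold lf
  rw [← Finset.sum_add_distrib]
  apply Finset.sum_congr rfl
  intro i _
  rw [Pi.add_apply, C_add, add_mul]

lemma lf_smul (a : ℂ) (c : Fin 3 → ℂ) : lf (a • c) = C a * lf c := by
  unfold lf
  rw [Finset.mul_sum]
  apply Finset.sum_congr rfl
  intro i _
  rw [Pi.smul_apply, smul_eq_mul, C_mul, mul_assoc]

/-- degree one splines -/
noncomputable def t1 (a : Fin 3 → ℂ) (e : ℂ) (b : Fin 3 → ℂ) (v : W 3) :
    MvPolynomial (Fin 3) ℂ :=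
  act v (lf a) + act v (C (dl v : ℂ) * (X 2 * C e)) + lf b

lemma t1_mem (a : Fin 3 → ℂ) (e : ℂ) (b : Fin 3 → ℂ) : t1 a e b ∈ SF 1 := by
  constructor
  · exact add_mem (add_mem (inv_mem _) (dl_mem _)) (const_mem _)
  · intro v
    refine ((act_isHomogeneous v (lf_hom a)).add (act_isHomogeneous v ?_)).add (lf_hom b)
    have := (isHomogeneous_C (Fin 3) (dl v : ℂ)).mul
      ((isHomogeneous_X ℂ (2 : Fin 3)).mul (isHomogeneous_C (Fin 3) e))
    simpa using this

lemma t1_inj {a : Fin 3 → ℂ} {e : ℂ} {b : Fin 3 → ℂ} (h : t1 a e b = 0) :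
    a = 0 ∧ e = 0 ∧ b = 0 := by
  have key : ∀ (s : Fin 3 → Bool) (x : Fin 3 → ℂ),
      eval x (t1 a e b (mkW (1, s))) = 0 := by
    intro s x
    rw [h]
    simp
  have h1 := key ![false, false, false] ![1, 0, 0]
  have h2 := key ![true, true, true] ![1, 0, 0]
  have h3 := key ![false, false, false] ![0, 1, 0]
  have h4 := key ![true, true, true] ![0, 1, 0]
  have h5 := key ![false, false, false] ![0, 0, 1]
  have h6 := key ![true, false, false] ![0, 0, 1]
  have h7 := key ![false, false, true] ![0, 0, 1]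
  simp [t1, lf, act, mkW, xv, dl, Fin.sum_univ_three, Fin.prod_univ_three] at h1 h2 h3 h4 h5 h6 h7
  refine ⟨?_, ?_, ?_⟩
  · funext i
    fin_cases i
    · show a 0 = 0
      linear_combination (h1 - h2) / 2
    · show a 1 = 0
      linear_combination (h3 - h4) / 2
    · show a 2 = 0
      linear_combination (h5 - h7) / 2
  · linear_combination (h5 - h6) / 2
  · funext i
    fin_cases i
    · show b 0 = 0
      linear_combination (h1 + h2) / 2
    · show b 1 = 0
      linear_combination (h3 + h4) / 2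
    · show b 2 = 0
      linear_combination (h6 + h7) / 2

/-- classification of the degree one splines -/
lemma SF1_class (ρ : W 3 → MvPolynomial (Fin 3) ℂ) (h : ρ ∈ SF 1) :
    ∃ a e b, ρ = t1 a e b := by
  let T : ((Fin 3 → ℂ) × ℂ × (Fin 3 → ℂ)) →ₗ[ℂ] SF 1 :=
    { toFun := fun c => ⟨t1 c.1 c.2.1 c.2.2, t1_mem _ _ _⟩
      map_add' := fun x y => by
        apply Subtype.ext
        funext v
        show t1 (x.1 + y.1) (x.2.1 + y.2.1) (x.2.2 + y.2.2) v =
          t1 x.1 x.2.1 x.2.2 v + t1 y.1 y.2.1 y.2.2 v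
        unfold t1
        rw [lf_add, lf_add, C_add]
        simp only [map_add, map_mul, mul_add]
        ring
      map_smul' := fun r x => by
        apply Subtype.ext
        funext v
        show t1 (r • x.1) (r * x.2.1) (r • x.2.2) v = r • t1 x.1 x.2.1 x.2.2 v
        unfold t1
        rw [lf_smul, lf_smul, C_mul, smul_eq_C_mul]
        simp only [map_mul, act, aeval_C, algebraMap_eq]
        ring }
  have hT : Function.Injective T := by
    rw [← LinearMap.ker_eq_bot, LinearMap.ker_eq_bot']
    rintro ⟨a, e, b⟩ hx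
    obtain ⟨h1, h2, h3⟩ := t1_inj (congrArg Subtype.val hx)
    simp only at h1 h2 h3
    subst h1 h2 h3
    rfl
  obtain ⟨c, hc⟩ := surj_of_inj T hT (by simpa using finrank_SF1) ⟨ρ, h⟩
  exact ⟨c.1, c.2.1, c.2.2, (congrArg Subtype.val hc).symm⟩

end Pool.Agent.N347.Hess
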