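import Mathlib

/-!
# The left quotient of the spline ring of a type C Hessenberg space

Signed permutations, the symplectic Lie algebra, Hessenberg spaces, splines, the dot action, the
graded pieces of the left quotient and their characters.
-/

set_option autoImplicit false

namespace Pool.Agent.N347.Hess

open MvPolynomial

/-- The signed indices `±1, …, ±n`: `(i, false)` stands for `i + 1` and `(i, true)` for
`-(i + 1)`. -/
abbrev SInd (n : ℕ) := Fin n × Bool

/-- The map `a ↦ -a` on signed indices. -/
def opp {n : ℕ} (a : SInd n) : SInd n := (a.1, !a.2)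

lemma opp_opp {n : ℕ} (a : SInd n) : opp (opp a) = a := by
  simp [opp]

lemma opp_ne {n : ℕ} (a : SInd n) : opp a ≠ a := by
  intro h
  have := congrArg Prod.snd h
  simp [opp] at this

lemma opp_inj {n : ℕ} {a b : SInd n} (h : opp a = opp b) : a = b := by
  rw [← opp_opp a, h, opp_opp]

/-- The group of signed permutations: the bijections `w` of `{±1, …, ±n}` with
`w(-a) = -w(a)`. -/
def W (n : ℕ) : Subgroup (Equiv.Perm (SInd n)) where
  carrier := {w | ∀ a, w (opp a) = opp (w a)}
  mul_mem' := by
    intro v w hv hw a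
    simp only [Set.mem_ofPred_eq, Equiv.Perm.mul_apply] at *
    rw [hw, hv]
  one_mem' := fun _ => rfl
  inv_mem' := by
    intro w hw a
    simp only [Set.mem_ofPred_eq] at *
    rw [Equiv.Perm.inv_eq_iff_eq, hw]
    simp

/-- The signed permutation which exchanges `a` and `b` and exchanges `-a` and `-b` (for `b = -a`
it exchanges `a` and `-a`). For `a ≠ b` it is the reflection in the root `x_a - x_b`. -/
def refl {n : ℕ} (a b : SInd n) : W n :=
  ⟨{ toFun := fun c => if c = a then b else if c = b then a else
        if c = opp a then opp b else if c = opp b then opp a else c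
     invFun := fun c => if c = a then b else if c = b then a else
        if c = opp a then opp b else if c = opp b then opp a else c
     left_inv := by
        intro c
        by_cases h1 : c = a
        · subst h1
          by_cases h2 : b = c <;> simp [h2]
        · by_cases h2 : c = b
          · subst h2; simp
          · by_cases h3 : c = opp a
            · subst h3
              have h4 : opp b ≠ a := fun h => h2 (by rw [← h, opp_opp])
              have h5 : opp b = b ↔ False := by simp [opp_ne]
              by_cases h6 : b = a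
              · subst h6; simp [opp_ne]
              · have h7 : opp b ≠ opp a := fun h => h6 (opp_inj h)
                simp [h1, h2, h4, h5, h7]
            · by_cases h4 : c = opp b
              · subst h4
                have h5 : opp a ≠ b := fun h => h1 (by rw [← h, opp_opp])
                simp [h1, h2, h3, h5, opp_ne]
              · simp [h1, h2, h3, h4]
     right_inv := by
        intro c
        by_cases h1 : c = a
        · subst h1
          by_cases h2 : b = c <;> simp [h2]
        · by_cases h2 : c = b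
          · subst h2; simp
          · by_cases h3 : c = opp a
            · subst h3
              have h4 : opp b ≠ a := fun h => h2 (by rw [← h, opp_opp])
              have h5 : opp b = b ↔ False := by simp [opp_ne]
              by_cases h6 : b = a
              · subst h6; simp [opp_ne]
              · have h7 : opp b ≠ opp a := fun h => h6 (opp_inj h)
                simp [h1, h2, h4, h5, h7]
            · by_cases h4 : c = opp b
              · subst h4
                have h5 : opp a ≠ b := fun h => h1 (by rw [← h, opp_opp])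
                simp [h1, h2, h3, h5, opp_ne]
              · simp [h1, h2, h3, h4] },
    by
      intro c
      show (if opp c = a then b else if opp c = b then a else
        if opp c = opp a then opp b else if opp c = opp b then opp a else opp c) =
        opp (if c = a then b else if c = b then a else
        if c = opp a then opp b else if c = opp b then opp a else c)
      have e1 : ∀ x y : SInd n, opp x = y ↔ x = opp y := by
        intro x y
        constructor
        · intro h; rw [← h, opp_opp]
        · intro h; rw [h, opp_opp]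
      simp only [e1, opp_opp]
      by_cases h1 : c = a
      · subst h1
        have h2 : c ≠ opp c := (opp_ne c).symm
        by_cases h3 : c = opp b
        · have h4 : b = opp c := by rw [h3, opp_opp]
          subst h4
          simp [opp_opp, h2]
        · simp [h2, h3]
      · by_cases h2 : c = b
        · subst h2
          have h2 : c ≠ opp c := (opp_ne c).symm
          by_cases h3 : c = opp a
          · subst h3; simp [opp_ne]
          · simp [h1, h2, h3]
        · by_cases h3 : c = opp a
          · subst h3; simp [h1, h2, opp_opp]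
          · by_cases h4 : c = opp b
            · subst h4; simp [h1, h2, h3, opp_opp]
            · simp [h1, h2, h3, h4]⟩

/-- The linear form `x_a`, where `x_{-i} = -x_i`. -/
noncomputable def xv {n : ℕ} (a : SInd n) : MvPolynomial (Fin n) ℂ :=
  if a.2 then -X a.1 else X a.1

/-- The action of a signed permutation on polynomials: `x_i ↦ x_{w(i)}`. -/
noncomputable def act {n : ℕ} (w : W n) :
    MvPolynomial (Fin n) ℂ →ₐ[ℂ] MvPolynomial (Fin n) ℂ :=
  aeval fun i => xv (w.1 (i, false))

/-! ### The symplectic Lie algebra and Hessenberg spaces -/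

/-- The place of a signed index in the order `1 < 2 < … < n < -n < … < -2 < -1`. -/
def pos {n : ℕ} (a : SInd n) : ℕ := if a.2 then 2 * n - 1 - a.1 else a.1

/-- The Gram matrix of the symplectic form with `ω(e_i, e_{-i}) = 1 = -ω(e_{-i}, e_i)`. -/
def gram (n : ℕ) : Matrix (SInd n) (SInd n) ℂ :=
  fun a b => if b = opp a then (if a.2 then -1 else 1) else 0

/-- The symplectic Lie algebra `sp_{2n}(ℂ)`: the matrices `A` with `Aᵀ J + J A = 0`, where `J` is
the Gram matrix. -/
def sp (n : ℕ) : Submodule ℂ (Matrix (SInd n) (SInd n) ℂ) where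
  carrier := {A | A.transpose * gram n + gram n * A = 0}
  add_mem' := by
    intro A B hA hB
    simp only [Set.mem_ofPred_eq] at *
    rw [Matrix.transpose_add, add_mul, mul_add]
    calc A.transpose * gram n + B.transpose * gram n + (gram n * A + gram n * B)
        = (A.transpose * gram n + gram n * A) + (B.transpose * gram n + gram n * B) := by abel
      _ = 0 := by rw [hA, hB, add_zero]
  zero_mem' := by simp
  smul_mem' := by
    intro c A hA
    simp only [Set.mem_ofPred_eq] at *
    rw [Matrix.transpose_smul, smul_mul_assoc, mul_smul_comm, ← smul_add, hA, smul_zero]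

/-- The Borel subalgebra: the matrices in `sp_{2n}(ℂ)` which are upper triangular for the order
`1 < 2 < … < n < -n < … < -1` of the rows and columns. -/
noncomputable def borel (n : ℕ) : Submodule ℂ (Matrix (SInd n) (SInd n) ℂ) where
  carrier := {A | A ∈ sp n ∧ ∀ a b, pos b < pos a → A a b = 0}
  add_mem' := by
    rintro A B ⟨h1, h2⟩ ⟨h3, h4⟩
    exact ⟨add_mem h1 h3, fun a b h => by simp [h2 a b h, h4 a b h]⟩
  zero_mem' := ⟨zero_mem _, fun a b _ => rfl⟩
  smul_mem' := by
    rintro c A ⟨h1, h2⟩
    exact ⟨Submodule.smul_mem _ c h1, fun a b h => by simp [h2 a b h]⟩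

/-- The value `h_a` at a signed index of the diagonal matrix with entries `z_i` at `i` and `-z_i`
at `-i`. -/
def tor {n : ℕ} (z : Fin n → ℂ) (a : SInd n) : ℂ := if a.2 then -z a.1 else z a.1

/-- The root space `g_{x_a - x_b}`: the `A ∈ sp_{2n}(ℂ)` with `[h, A] = (h_a - h_b) A` for every
diagonal matrix `h ∈ sp_{2n}(ℂ)`. -/
noncomputable def rootSpace {n : ℕ} (a b : SInd n) :
    Submodule ℂ (Matrix (SInd n) (SInd n) ℂ) where
  carrier := {A | A ∈ sp n ∧ ∀ z : Fin n → ℂ,
    Matrix.diagonal (tor z) * A - A * Matrix.diagonal (tor z) = (tor z a - tor z b) • A}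
  add_mem' := by
    rintro A B ⟨h1, h2⟩ ⟨h3, h4⟩
    refine ⟨add_mem h1 h3, fun z => ?_⟩
    rw [smul_add, ← h2, ← h4, mul_add, add_mul]
    abel
  zero_mem' := ⟨zero_mem _, fun z => by simp⟩
  smul_mem' := by
    rintro c A ⟨h1, h2⟩
    refine ⟨Submodule.smul_mem _ c h1, fun z => ?_⟩
    rw [smul_comm, ← h2, smul_sub, mul_smul_comm, smul_mul_assoc]

/-- A Hessenberg space: a subspace `H` with `b ⊆ H ⊆ g` and `[b, H] ⊆ H`. -/
structure IsHessenberg {n : ℕ} (H : Submodule ℂ (Matrix (SInd n) (SInd n) ℂ)) : Prop where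
  borel_le : borel n ≤ H
  le_sp : H ≤ sp n
  stable : ∀ A ∈ borel n, ∀ B ∈ H, A * B - B * A ∈ H

/-- The positive root `α = x_a - x_b` (so `a` is before `b` in the order
`1 < … < n < -n < … < -1`) satisfies `g_{-α} ⊆ H`. -/
def RootOf {n : ℕ} (H : Submodule ℂ (Matrix (SInd n) (SInd n) ℂ)) (a b : SInd n) : Prop :=
  pos a < pos b ∧ rootSpace b a ≤ H

/-! ### The action on polynomials -/

lemma act_one {n : ℕ} : act (1 : W n) = AlgHom.id ℂ _ := by
  apply MvPolynomial.algHom_ext
  intro i
  simp [act, xv]

lemma act_xv {n : ℕ} (w : W n) (a : SInd n) : act w (xv a) = xv (w.1 a) := by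
  obtain ⟨i, b⟩ := a
  cases b
  · simp [act, xv]
  · have h : w.1 (i, true) = opp (w.1 (i, false)) := w.2 (i, false)
    rw [h]
    simp only [xv, act, opp, if_true, map_neg, aeval_X]
    generalize w.1 (i, false) = c
    obtain ⟨j, e⟩ := c
    cases e <;> simp

lemma act_mul {n : ℕ} (v w : W n) : act (v * w) = (act v).comp (act w) := by
  apply MvPolynomial.algHom_ext
  intro i
  rw [AlgHom.comp_apply]
  have h1 : act w (X i) = xv (w.1 (i, false)) := by simp [act]
  have h2 : act (v * w) (X i) = xv ((v * w).1 (i, false)) := by simp [act]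
  rw [h1, h2, act_xv]
  rfl

lemma act_isHomogeneous {n : ℕ} (w : W n) {p : MvPolynomial (Fin n) ℂ} {d : ℕ}
    (hp : p.IsHomogeneous d) : (act w p).IsHomogeneous d := by
  have h1 : ∀ a : SInd n, (xv a).IsHomogeneous 1 := by
    intro a
    unfold xv
    split_ifs
    · exact (isHomogeneous_X _ _).neg
    · exact isHomogeneous_X _ _
  have h := hp.aeval (fun i => xv (w.1 (i, false))) (fun i => h1 _)
  rwa [one_mul] at h

/-! ### Splines and the dot action -/

/-- The group `𝔚_n` of signed permutations, as a type. -/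
def SW (n : ℕ) : Type := W n

instance instGroupSW (n : ℕ) : Group (SW n) := (W n).toGroup

/-- The signed permutation which is the reflection in the root `x_a - x_b` (for `a ≠ b`). -/
def rf {n : ℕ} (a b : SInd n) : SW n := refl a b

/-- The functions from `𝔚_n` to `ℂ[x_1, …, x_n]`, that is the product of copies of the polynomial
ring indexed by `𝔚_n`. -/
def Fun (n : ℕ) : Type := SW n → MvPolynomial (Fin n) ℂ

noncomputable instance instAddFun (n : ℕ) : AddCommGroup (Fun n) := Pi.addCommGroup

noncomputable instance instModFun (n : ℕ) : Module ℂ (Fun n) := Pi.module _ _ _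

/-- The function `ρ` lies in the spline ring `𝒮(H)`: for every positive root `α = x_a - x_b` with
`g_{-α} ⊆ H` and every `w`, the linear form `w(α)` divides `ρ(w) - ρ(w s_α)`. -/
def IsSpline {n : ℕ} (H : Submodule ℂ (Matrix (SInd n) (SInd n) ℂ)) (ρ : Fun n) : Prop :=
  ∀ a b, RootOf H a b → ∀ w : SW n, act w (xv a - xv b) ∣ ρ w - ρ (w * rf a b)

lemma spline_add {n : ℕ} {H : Submodule ℂ (Matrix (SInd n) (SInd n) ℂ)} {k : ℕ} {ρ σ : Fun n}
    (h1 : IsSpline H ρ ∧ ∀ v, (ρ v).IsHomogeneous k)
    (h2 : IsSpline H σ ∧ ∀ v, (σ v).IsHomogeneous k) :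
    IsSpline H (ρ + σ) ∧ ∀ v, ((ρ + σ) v).IsHomogeneous k := by
  refine ⟨fun a b hab w => ?_, fun v => (h1.2 v).add (h2.2 v)⟩
  have e : (ρ + σ) w - (ρ + σ) (w * rf a b) =
      (ρ w - ρ (w * rf a b)) + (σ w - σ (w * rf a b)) := by
    show (ρ w + σ w) - (ρ (w * rf a b) + σ (w * rf a b)) = _
    ring
  rw [e]
  exact dvd_add (h1.1 a b hab w) (h2.1 a b hab w)

lemma spline_zero {n : ℕ} {H : Submodule ℂ (Matrix (SInd n) (SInd n) ℂ)} {k : ℕ} :
    IsSpline H 0 ∧ ∀ v, ((0 : Fun n) v).IsHomogeneous k := by
  refine ⟨fun a b _ w => ?_, fun v => isHomogeneous_zero _ _ _⟩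
  show _ ∣ (0 - 0 : MvPolynomial (Fin n) ℂ)
  rw [sub_zero]
  exact dvd_zero _

lemma spline_smul {n : ℕ} {H : Submodule ℂ (Matrix (SInd n) (SInd n) ℂ)} {k : ℕ} (c : ℂ)
    {ρ : Fun n} (h : IsSpline H ρ ∧ ∀ v, (ρ v).IsHomogeneous k) :
    IsSpline H (c • ρ) ∧ ∀ v, ((c • ρ) v).IsHomogeneous k := by
  refine ⟨fun a b hab w => ?_, fun v => (homogeneousSubmodule (Fin n) ℂ k).smul_mem c (h.2 v)⟩
  show _ ∣ c • ρ w - c • ρ (w * rf a b)
  rw [← smul_sub, smul_eq_C_mul]
  exact (h.1 a b hab w).mul_left _

/-- The degree-`k` piece `𝒮(H)_k` of the spline ring: the splines all of whose values are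
homogeneous of degree `k`. -/
noncomputable def splineDeg {n : ℕ} (H : Submodule ℂ (Matrix (SInd n) (SInd n) ℂ)) (k : ℕ) :
    Submodule ℂ (Fun n) where
  carrier := {ρ | IsSpline H ρ ∧ ∀ v, (ρ v).IsHomogeneous k}
  add_mem' h1 h2 := spline_add h1 h2
  zero_mem' := spline_zero
  smul_mem' c _ h := spline_smul c h

/-- The ideal of the spline ring generated by the constant splines `(p, p, …, p)` with `p`
homogeneous of positive degree: the span of the products `p σ` with `σ` a spline. -/
noncomputable def constIdeal {n : ℕ} (H : Submodule ℂ (Matrix (SInd n) (SInd n) ℂ)) :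
    Submodule ℂ (Fun n) :=
  Submodule.span ℂ {f | ∃ (d : ℕ) (p : MvPolynomial (Fin n) ℂ) (σ : Fun n),
    0 < d ∧ p.IsHomogeneous d ∧ IsSpline H σ ∧ f = fun v => p * σ v}

/-- The elements of `𝒮(H)_k` which lie in the ideal generated by the constant splines of positive
degree. -/
noncomputable def rel {n : ℕ} (H : Submodule ℂ (Matrix (SInd n) (SInd n) ℂ)) (k : ℕ) :
    Submodule ℂ (splineDeg H k) := (constIdeal H).comap (splineDeg H k).subtype

/-- The degree-`k` piece of the left quotient. -/
def LQ {n : ℕ} (H : Submodule ℂ (Matrix (SInd n) (SInd n) ℂ)) (k : ℕ) : Type :=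
  splineDeg H k ⧸ rel H k

noncomputable instance instAddLQ {n : ℕ} (H : Submodule ℂ (Matrix (SInd n) (SInd n) ℂ)) (k : ℕ) :
    AddCommGroup (LQ H k) := Submodule.Quotient.addCommGroup (rel H k)

noncomputable instance instModLQ {n : ℕ} (H : Submodule ℂ (Matrix (SInd n) (SInd n) ℂ)) (k : ℕ) :
    Module ℂ (LQ H k) := Submodule.Quotient.module (rel H k)

lemma dot_add {n : ℕ} (w : SW n) (ρ σ : Fun n) :
    (fun v => act w ((ρ + σ) (w⁻¹ * v)) : Fun n) =
      (fun v => act w (ρ (w⁻¹ * v)) : Fun n) + (fun v => act w (σ (w⁻¹ * v)) : Fun n) := by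
  funext v
  exact map_add (act w) _ _

lemma dot_smul {n : ℕ} (w : SW n) (c : ℂ) (ρ : Fun n) :
    (fun v => act w ((c • ρ) (w⁻¹ * v)) : Fun n) =
      c • (fun v => act w (ρ (w⁻¹ * v)) : Fun n) := by
  funext v
  exact map_smul (act w) _ _

/-- The dot action `(w · ρ)(v) = w ρ(w⁻¹ v)`. -/
noncomputable def dot {n : ℕ} (w : SW n) : Fun n →ₗ[ℂ] Fun n where
  toFun ρ := fun v => act w (ρ (w⁻¹ * v))
  map_add' := dot_add w
  map_smul' := dot_smul w

lemma dot_spline {n : ℕ} {H : Submodule ℂ (Matrix (SInd n) (SInd n) ℂ)} (w : SW n) {ρ : Fun n}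
    (h : IsSpline H ρ) : IsSpline H (dot w ρ) := by
  intro a b hab v
  show act v (xv a - xv b) ∣ act w (ρ (w⁻¹ * v)) - act w (ρ (w⁻¹ * (v * rf a b)))
  have h1 := map_dvd (act w) (h a b hab (w⁻¹ * v))
  have e1 : act w (act (w⁻¹ * v : SW n) (xv a - xv b)) = act v (xv a - xv b) := by
    have h2 := act_mul w (w⁻¹ * v : SW n)
    have h3 : (w * (w⁻¹ * v) : SW n) = v := mul_inv_cancel_left w v
    have h4 : act (w * (w⁻¹ * v) : SW n) (xv a - xv b) =
        act w (act (w⁻¹ * v : SW n) (xv a - xv b)) := DFunLike.congr_fun h2 _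
    rw [← h4, h3]
  rw [e1, map_sub (act w), mul_assoc] at h1
  exact h1

lemma dot_splineDeg {n : ℕ} (H : Submodule ℂ (Matrix (SInd n) (SInd n) ℂ)) (k : ℕ) (w : SW n) :
    ∀ ρ ∈ splineDeg H k, dot w ρ ∈ splineDeg H k :=
  fun _ h => ⟨dot_spline w h.1, fun _ => act_isHomogeneous w (h.2 _)⟩

/-- The dot action on `𝒮(H)_k`. -/
noncomputable def dotDeg {n : ℕ} (H : Submodule ℂ (Matrix (SInd n) (SInd n) ℂ)) (k : ℕ)
    (w : SW n) : splineDeg H k →ₗ[ℂ] splineDeg H k :=
  (dot w).restrict (dot_splineDeg H k w)

lemma dot_constIdeal {n : ℕ} (H : Submodule ℂ (Matrix (SInd n) (SInd n) ℂ)) (w : SW n) :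
    constIdeal H ≤ (constIdeal H).comap (dot w) := by
  unfold constIdeal
  rw [Submodule.span_le]
  rintro f ⟨d, p, σ, hd, hp, hσ, rfl⟩
  apply Submodule.subset_span
  refine ⟨d, act w p, dot w σ, hd, act_isHomogeneous w hp, dot_spline w hσ, ?_⟩
  funext v
  exact map_mul (act w) _ _

lemma dot_rel {n : ℕ} (H : Submodule ℂ (Matrix (SInd n) (SInd n) ℂ)) (k : ℕ) (w : SW n) :
    rel H k ≤ (rel H k).comap (dotDeg H k w) :=
  fun _ h => dot_constIdeal H w h

/-- The dot action on the degree-`k` piece of the left quotient. -/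
noncomputable def dotLQ {n : ℕ} (H : Submodule ℂ (Matrix (SInd n) (SInd n) ℂ)) (k : ℕ)
    (w : SW n) : LQ H k →ₗ[ℂ] LQ H k :=
  (rel H k).mapQ (rel H k) (dotDeg H k w) (dot_rel H k w)

/-- The character `L_k(H)`: the trace of `w` on the degree-`k` piece of the left quotient. -/
noncomputable def L {n : ℕ} (H : Submodule ℂ (Matrix (SInd n) (SInd n) ℂ)) (k : ℕ) (w : SW n) :
    ℂ := LinearMap.trace ℂ (LQ H k) (dotLQ H k w)

/-! ### Coset characters of reflection subgroups -/

/-- A reflection subgroup: a subgroup generated by reflections. -/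
def IsReflectionSubgroup {n : ℕ} (R : Subgroup (SW n)) : Prop :=
  ∃ T : Set (SW n), (∀ t ∈ T, ∃ a b, a ≠ b ∧ t = rf a b) ∧ R = Subgroup.closure T

/-- The character `π_R` of `𝔚_n` acting on the cosets `𝔚_n / R`: the number of cosets fixed by
`w`. -/
noncomputable def cosetChar {n : ℕ} (R : Subgroup (SW n)) (w : SW n) : ℕ :=
  Nat.card {x : SW n ⧸ R // w • x = x}

end Pool.Agent.N347.Hess
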