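import Pool.Agent.N347.Hess.Kern

set_option autoImplicit false

namespace Pool.Agent.N347.Hess

open MvPolynomial Module

/-! ### Evaluation -/

/-- the sign of a Boolean -/
def sg (b : Bool) : ℤ := if b then -1 else 1

lemma sg_sq (b : Bool) : (sg b : ℂ) * sg b = 1 := by
  cases b <;> simp [sg]

lemma eval_act_mk (p : Equiv.Perm (Fin 3)) (s : Fin 3 → Bool) (x : Fin 3 → ℂ)
    (q : MvPolynomial (Fin 3) ℂ) :
    eval x (act (mkW (p, s)) q) = eval (fun i => (sg (s i) : ℂ) * x (p i)) q := by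
  have h : (eval x).comp (act (mkW (p, s)) : _ →+* MvPolynomial (Fin 3) ℂ) =
      eval (fun i => (sg (s i) : ℂ) * x (p i)) := by
    apply MvPolynomial.ringHom_ext
    · intro r
      simp [act]
    · intro i
      simp only [RingHom.comp_apply, RingHom.coe_coe, act, aeval_X, eval_X, mkW, xv, sg]
      cases hs : s i <;> simp [hs]
  exact DFunLike.congr_fun h q

lemma dl_mk (p : Equiv.Perm (Fin 3)) (s : Fin 3 → Bool) :
    dl (mkW (p, s)) = sg (s 0) * sg (s 1) * sg (s 2) := by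
  simp [dl, mkW, sg, Fin.prod_univ_three]

lemma eval_kk (m : Fin 3 → Fin 3 → ℂ) (n : Fin 3 → ℂ) (q : MvPolynomial (Fin 3) ℂ)
    (p : Equiv.Perm (Fin 3)) (s : Fin 3 → Bool) (x : Fin 3 → ℂ) :
    eval x (kk m n q (mkW (p, s))) =
      (sg (s 0) * sg (s 1) : ℂ) * (x (p 2) * (n 0 * x 0 + n 1 * x 1 + n 2 * x 2)) +
      ((sg (s 0) : ℂ) * ((m 0 0 * x 0 + m 1 0 * x 1 + m 2 0 * x 2) * x (p 0)) +
      (sg (s 1) : ℂ) * ((m 0 1 * x 0 + m 1 1 * x 1 + m 2 1 * x 2) * x (p 1)) +
      (sg (s 2) : ℂ) * ((m 0 2 * x 0 + m 1 2 * x 1 + m 2 2 * x 2) * x (p 2))) + eval x q := by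
  unfold kk
  rw [map_add, map_add, map_mul, eval_act_mk, dl_mk]
  simp only [map_mul, eval_act_mk, lf, eval_C, eval_X, Fin.sum_univ_three, map_add, mul_one]
  push_cast
  linear_combination ((sg (s 0) : ℂ) * sg (s 1) *
    (x (p 2) * (n 0 * x 0 + n 1 * x 1 + n 2 * x 2))) * sg_sq (s 2)

/-- quadratic polynomials -/
noncomputable def qf (r : Fin 6 → ℂ) : MvPolynomial (Fin 3) ℂ :=
  C (r 0) * (X 0 * X 0) + C (r 1) * (X 1 * X 1) + C (r 2) * (X 2 * X 2) +
    C (r 3) * (X 0 * X 1) + C (r 4) * (X 0 * X 2) + C (r 5) * (X 1 * X 2)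

lemma qf_hom (r : Fin 6 → ℂ) : (qf r).IsHomogeneous 2 := by
  have h : ∀ (c : ℂ) (i j : Fin 3), (C c * (X i * X j)).IsHomogeneous 2 := by
    intro c i j
    have := (isHomogeneous_C (Fin 3) c).mul ((isHomogeneous_X ℂ i).mul (isHomogeneous_X ℂ j))
    simpa using this
  exact (((((h _ _ _).add (h _ _ _)).add (h _ _ _)).add (h _ _ _)).add (h _ _ _)).add (h _ _ _)

lemma qf_add (r t : Fin 6 → ℂ) : qf (r + t) = qf r + qf t := by
  unfold qf
  simp only [Pi.add_apply, C_add]
  ring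

lemma qf_smul (c : ℂ) (r : Fin 6 → ℂ) : qf (c • r) = C c * qf r := by
  unfold qf
  simp only [Pi.smul_apply, smul_eq_mul, C_mul]
  ring

lemma kk_inj (m : Fin 3 → Fin 3 → ℂ) (n : Fin 3 → ℂ) (r : Fin 6 → ℂ)
    (h : kk m n (qf r) = 0) : m = 0 ∧ n = 0 ∧ r = 0 := by
  have key : ∀ (s : Fin 3 → Bool) (x : Fin 3 → ℂ), eval x (kk m n (qf r) (mkW (1, s))) = 0 := by
    intro s x
    rw [h]
    simp
  have five : ∀ a b c : ℂ, (m 0 0 * a + m 1 0 * b + m 2 0 * c) * a = 0 ∧
      (m 0 1 * a + m 1 1 * b + m 2 1 * c) * b = 0 ∧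
      (m 0 2 * a + m 1 2 * b + m 2 2 * c) * c = 0 ∧
      c * (n 0 * a + n 1 * b + n 2 * c) = 0 ∧
      r 0 * (a * a) + r 1 * (b * b) + r 2 * (c * c) + r 3 * (a * b) + r 4 * (a * c) +
        r 5 * (b * c) = 0 := by
    intro a b c
    have e0 := key ![false, false, false] ![a, b, c]
    have e1 := key ![true, false, false] ![a, b, c]
    have e2 := key ![false, true, false] ![a, b, c]
    have e3 := key ![true, true, false] ![a, b, c]
    have e4 := key ![false, false, true] ![a, b, c]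
    rw [eval_kk] at e0 e1 e2 e3 e4
    simp [sg, qf] at e0 e1 e2 e3 e4
    refine ⟨?_, ?_, ?_, ?_, ?_⟩
    · linear_combination (e0 - e1 + e2 - e3) / 4
    · linear_combination (e0 + e1 - e2 - e3) / 4
    · linear_combination (e0 - e4) / 2
    · linear_combination (e0 - e1 - e2 + e3) / 4
    · linear_combination (e1 + e2) / 2 - (e0 - e4) / 2 + (e0 - e1 - e2 + e3) / 4
  refine ⟨?_, ?_, ?_⟩
  · funext i j
    fin_cases i <;> fin_cases j
    · show m 0 0 = 0
      linear_combination (five 1 0 0).1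
    · show m 0 1 = 0
      linear_combination (five 1 1 0).2.1 - (five 0 1 0).2.1
    · show m 0 2 = 0
      linear_combination (five 1 0 1).2.2.1 - (five 0 0 1).2.2.1
    · show m 1 0 = 0
      linear_combination (five 1 1 0).1 - (five 1 0 0).1
    · show m 1 1 = 0
      linear_combination (five 0 1 0).2.1
    · show m 1 2 = 0
      linear_combination (five 0 1 1).2.2.1 - (five 0 0 1).2.2.1
    · show m 2 0 = 0
      linear_combination (five 1 0 1).1 - (five 1 0 0).1
    · show m 2 1 = 0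
      linear_combination (five 0 1 1).2.1 - (five 0 1 0).2.1
    · show m 2 2 = 0
      linear_combination (five 0 0 1).2.2.1
  · funext i
    fin_cases i
    · show n 0 = 0
      linear_combination (five 1 0 1).2.2.2.1 - (five 0 0 1).2.2.2.1
    · show n 1 = 0
      linear_combination (five 0 1 1).2.2.2.1 - (five 0 0 1).2.2.2.1
    · show n 2 = 0
      linear_combination (five 0 0 1).2.2.2.1
  · have f0 : r 0 = 0 := by linear_combination (five 1 0 0).2.2.2.2
    have f1 : r 1 = 0 := by linear_combination (five 0 1 0).2.2.2.2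
    have f2 : r 2 = 0 := by linear_combination (five 0 0 1).2.2.2.2
    funext i
    fin_cases i
    · exact f0
    · exact f1
    · exact f2
    · show r 3 = 0
      linear_combination (five 1 1 0).2.2.2.2 - f0 - f1
    · show r 4 = 0
      linear_combination (five 1 0 1).2.2.2.2 - f0 - f2
    · show r 5 = 0
      linear_combination (five 0 1 1).2.2.2.2 - f1 - f2

/-! ### The six odd elements -/

/-- the function `v⁻¹ ρ(v)` of a combination of the six odd splines -/
noncomputable def pf (c d : Fin 3 → ℂ) (v : W 3) : MvPolynomial (Fin 3) ℂ :=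
  C (dl v : ℂ) * (X 2 * lf c) + ∑ i, C (d i) * G (v⁻¹.1 (i, false))

/-- a combination of the six odd splines -/
noncomputable def psi (c d : Fin 3 → ℂ) (v : W 3) : MvPolynomial (Fin 3) ℂ := act v (pf c d v)

lemma pf_ng (c d : Fin 3 → ℂ) (v : W 3) : pf c d (ng * v) = -pf c d v := by
  have h : ∀ i : Fin 3, (ng * v)⁻¹.1 (i, false) = opp (v⁻¹.1 (i, false)) := by
    intro i
    rw [mul_inv_rev, ng_inv]
    exact v⁻¹.2 (i, false)
  unfold pf
  simp only [h, G_opp, dl_ng, Fin.sum_univ_three]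
  push_cast
  rw [C_neg]
  ring

lemma psi_mem (c d : Fin 3 → ℂ) : psi c d ∈ Splines H0 := by
  have h1 : psi c d = (fun v : W 3 => act v (C (dl v : ℂ) * (X 2 * lf c))) +
      (d 0 • (fun v : W 3 => act v (G (v⁻¹.1 (0, false)))) +
      d 1 • (fun v : W 3 => act v (G (v⁻¹.1 (1, false)))) +
      d 2 • (fun v : W 3 => act v (G (v⁻¹.1 (2, false))))) := by
    funext v
    unfold psi pf
    rw [Fin.sum_univ_three]
    simp only [map_add, map_mul, Pi.add_apply, Pi.smul_apply, smul_eq_C_mul]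
    simp [act]
  rw [h1]
  exact add_mem (dl_mem _) (add_mem (add_mem ((Splines H0).smul_mem (G_mem 0) _)
    ((Splines H0).smul_mem (G_mem 1) _)) ((Splines H0).smul_mem (G_mem 2) _))

lemma G_hom (u : SInd 3) : (G u).IsHomogeneous 2 := by
  unfold G
  have h1 : ((X u.1 : MvPolynomial (Fin 3) ℂ) ^ 2 - X 2 ^ 2).IsHomogeneous 2 := by
    refine IsHomogeneous.sub ?_ ?_
    · have := (isHomogeneous_X ℂ u.1).pow 2
      simpa using this
    · have := (isHomogeneous_X ℂ (2 : Fin 3)).pow 2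
      simpa using this
  split_ifs
  · rw [neg_one_mul]
    exact h1.neg
  · rw [one_mul]
    exact h1

lemma pf_hom (c d : Fin 3 → ℂ) (v : W 3) : (pf c d v).IsHomogeneous 2 := by
  unfold pf
  refine IsHomogeneous.add ?_ ?_
  · have := (isHomogeneous_C (Fin 3) (dl v : ℂ)).mul
      ((isHomogeneous_X ℂ (2 : Fin 3)).mul (lf_hom c))
    simpa using this
  · apply IsHomogeneous.sum
    intro i _
    have := (isHomogeneous_C (Fin 3) (d i)).mul (G_hom (v⁻¹.1 (i, false)))
    simpa using this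

lemma psi_hom (c d : Fin 3 → ℂ) (v : W 3) : (psi c d v).IsHomogeneous 2 :=
  act_isHomogeneous v (pf_hom c d v)

lemma pf_add (c c' d d' : Fin 3 → ℂ) (v : W 3) :
    pf (c + c') (d + d') v = pf c d v + pf c' d' v := by
  unfold pf
  rw [lf_add, Fin.sum_univ_three, Fin.sum_univ_three, Fin.sum_univ_three, Pi.add_apply,
    Pi.add_apply, Pi.add_apply, C_add, C_add, C_add]
  ring

lemma pf_smul (r : ℂ) (c d : Fin 3 → ℂ) (v : W 3) : pf (r • c) (r • d) v = C r * pf c d v := by
  unfold pf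
  rw [lf_smul, Fin.sum_univ_three, Fin.sum_univ_three, Pi.smul_apply, Pi.smul_apply,
    Pi.smul_apply, smul_eq_mul, smul_eq_mul, smul_eq_mul, C_mul, C_mul, C_mul]
  ring

lemma psi_add (c c' d d' : Fin 3 → ℂ) : psi (c + c') (d + d') = psi c d + psi c' d' := by
  funext v
  show act v (pf (c + c') (d + d') v) = act v (pf c d v) + act v (pf c' d' v)
  rw [pf_add, map_add]

lemma psi_smul (r : ℂ) (c d : Fin 3 → ℂ) : psi (r • c) (r • d) = r • psi c d := by
  funext v
  show act v (pf (r • c) (r • d) v) = r • act v (pf c d v)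
  rw [pf_smul, map_mul, smul_eq_C_mul]
  congr 1
  simp [act]

lemma mk_inv (p : Equiv.Perm (Fin 3)) (s : Fin 3 → Bool) (i : Fin 3) :
    (mkW (p, s))⁻¹.1 (i, false) = (p.symm i, s (p.symm i)) := by
  show (p.symm i, xor false (s (p.symm i))) = _
  simp

lemma eval_psi (c d : Fin 3 → ℂ) (p : Equiv.Perm (Fin 3)) (s : Fin 3 → Bool) (x : Fin 3 → ℂ) :
    eval x (psi c d (mkW (p, s))) =
      (sg (s 0) * sg (s 1) * sg (s 2) : ℂ) * (sg (s 2) * x (p 2) * (c 0 * (sg (s 0) * x (p 0)) +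
        c 1 * (sg (s 1) * x (p 1)) + c 2 * (sg (s 2) * x (p 2)))) +
      ∑ i, d i * (sg (s (p.symm i)) * (x i ^ 2 - x (p 2) ^ 2)) := by
  unfold psi pf
  rw [eval_act_mk, dl_mk]
  simp only [mk_inv, G, map_add, map_mul, eval_C, eval_X, lf, Fin.sum_univ_three]
  have h : ∀ i : Fin 3, eval (fun i => (sg (s i) : ℂ) * x (p i))
      ((if s (p.symm i) = true then -1 else 1) * (X (p.symm i) ^ 2 - X 2 ^ 2)) =
      sg (s (p.symm i)) * (x i ^ 2 - x (p 2) ^ 2) := by
    intro i
    have h1 : eval (fun i => (sg (s i) : ℂ) * x (p i))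
      ((if s (p.symm i) = true then -1 else 1) * (X (p.symm i) ^ 2 - X 2 ^ 2)) =
      sg (s (p.symm i)) * ((sg (s (p.symm i)) * x (p (p.symm i))) ^ 2 - (sg (s 2) * x (p 2)) ^ 2)
        := by
      unfold sg
      cases hs : s (p.symm i) <;> simp
    rw [h1, Equiv.apply_symm_apply]
    linear_combination sg (s (p.symm i)) * x i ^ 2 * sg_sq (s (p.symm i)) -
      sg (s (p.symm i)) * x (p 2) ^ 2 * sg_sq (s 2)
  rw [← h 0, ← h 1, ← h 2]
  push_cast
  simp only [map_mul]

end Pool.Agent.N347.Hess
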