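import Pool.Agent.N347.Hess.Bound

set_option autoImplicit false

namespace Pool.Agent.N347.Hess

open MvPolynomial Module

/-- the sign `(-1)^(number of sign changes)` -/
def dl (w : W 3) : ℤ := ∏ i : Fin 3, if (w.1 (i, false)).2 then -1 else 1

/-- the values of `dl` at the six reflections -/
def sk (k : Fin 6) : ℤ := if k = 5 then -1 else 1

lemma dl_refl' : ∀ k : Fin 6, ∀ p : Equiv.Perm (Fin 3) × (Fin 3 → Bool),
    dl (mkW p * refl (rt k).1 (rt k).2) = sk k * dl (mkW p) := by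
  decide +kernel

lemma dl_refl (k : Fin 6) (w : W 3) : dl (w * refl (rt k).1 (rt k).2) = sk k * dl w := by
  obtain ⟨p, rfl⟩ := mkW_surj w
  exact dl_refl' k p

/-- the element `-1` -/
def ng : W 3 := ⟨⟨opp, opp, opp_opp, opp_opp⟩, fun _ => rfl⟩

lemma ng_mul_self : ng * ng = 1 := by
  apply Subtype.ext
  apply Equiv.ext
  intro c
  exact opp_opp c

lemma ng_inv : ng⁻¹ = ng := inv_eq_of_mul_eq_one_left ng_mul_self

lemma dl_ng' : ∀ p : Equiv.Perm (Fin 3) × (Fin 3 → Bool), dl (ng * mkW p) = -dl (mkW p) := by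
  decide +kernel

lemma dl_ng (w : W 3) : dl (ng * w) = -dl w := by
  obtain ⟨p, rfl⟩ := mkW_surj w
  exact dl_ng' p

/-- constants are splines -/
lemma const_mem (p : MvPolynomial (Fin 3) ℂ) : (fun _ : W 3 => p) ∈ Splines H0 := by
  intro a b _ w
  simp

/-- `v ↦ v q` -/
lemma inv_mem (q : MvPolynomial (Fin 3) ℂ) : (fun v : W 3 => act v q) ∈ Splines H0 := by
  apply mem_splines (fun _ => q)
  intro k v
  simp

/-- `v ↦ δ(v) v (x_3 q)` -/
lemma dl_mem (q : MvPolynomial (Fin 3) ℂ) :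
    (fun v : W 3 => act v (C (dl v : ℂ) * (X 2 * q))) ∈ Splines H0 := by
  apply mem_splines (fun v => C (dl v : ℂ) * (X 2 * q))
  intro k v
  rw [dl_refl]
  by_cases hk : k = 5
  · subst hk
    have e : C (dl v : ℂ) * (X 2 * q) - C ((sk 5 * dl v : ℤ) : ℂ) * (X 2 * q) =
        (xv (rt 5).1 - xv (rt 5).2) * (C (dl v : ℂ) * q) := by
      have h1 : xv (rt 5).1 = (X 2 : MvPolynomial (Fin 3) ℂ) := by simp [rt, xv]
      have h2 : xv (rt 5).2 = (-X 2 : MvPolynomial (Fin 3) ℂ) := by simp [rt, xv]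
      rw [h1, h2]
      simp only [sk, if_true]
      push_cast
      rw [neg_one_mul, C_neg]
      ring
    rw [e]
    exact dvd_mul_right _ _
  · have : sk k = 1 := by simp [sk, hk]
    rw [this, one_mul, sub_self]
    exact dvd_zero _

/-- the function `G(u) = ± (x_{|u|}² - x_3²)` -/
noncomputable def G (u : SInd 3) : MvPolynomial (Fin 3) ℂ :=
  (if u.2 then -1 else 1) * (X u.1 ^ 2 - X 2 ^ 2)

lemma G_opp (u : SInd 3) : G (opp u) = -G u := by
  obtain ⟨i, b⟩ := u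
  cases b <;> simp [G, opp]

lemma G_dvd (k : Fin 6) (u : SInd 3) :
    (xv (rt k).1 - xv (rt k).2) ∣ G u - G ((refl (rt k).1 (rt k).2).1 u) := by
  obtain ⟨i, b⟩ := u
  rw [refl_apply]
  fin_cases k <;> fin_cases i <;> cases b <;> simp [rt, G, xv, opp]
  all_goals first
    | (refine ⟨(X 0 + X 1), ?_⟩; ring1)
    | (refine ⟨(X 0 + X 2), ?_⟩; ring1)
    | (refine ⟨(X 0 - X 2), ?_⟩; ring1)
    | (refine ⟨(X 1 + X 2), ?_⟩; ring1)
    | (refine ⟨(X 1 - X 2), ?_⟩; ring1)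
    | (refine ⟨-(X 0 + X 1), ?_⟩; ring1)
    | (refine ⟨-(X 0 + X 2), ?_⟩; ring1)
    | (refine ⟨-(X 0 - X 2), ?_⟩; ring1)
    | (refine ⟨-(X 1 + X 2), ?_⟩; ring1)
    | (refine ⟨-(X 1 - X 2), ?_⟩; ring1)

/-- the new splines of degree two -/
lemma G_mem (i : Fin 3) : (fun v : W 3 => act v (G (v⁻¹.1 (i, false)))) ∈ Splines H0 := by
  apply mem_splines (fun v => G (v⁻¹.1 (i, false)))
  intro k v
  have e : (v * refl (rt k).1 (rt k).2)⁻¹.1 (i, false) =
      (refl (rt k).1 (rt k).2).1 (v⁻¹.1 (i, false)) := by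
    rw [mul_inv_rev, refl_inv]
    rfl
  rw [e]
  exact G_dvd k _

end Pool.Agent.N347.Hess
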