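import Pool.Agent.N347.Hess.Evl

set_option autoImplicit false

namespace Pool.Agent.N347.Hess

open MvPolynomial Module

/-- the six odd splines are independent modulo the ideal -/
lemma psi_inj (c d : Fin 3 → ℂ) (h : psi c d ∈ K2) : c = 0 ∧ d = 0 := by
  obtain ⟨m, n, q, _, h⟩ := h
  have key : ∀ (p : Equiv.Perm (Fin 3)) (s : Fin 3 → Bool) (x : Fin 3 → ℂ),
      eval x (psi c d (mkW (p, s))) = eval x (kk m n q (mkW (p, s))) := by
    intro p s x
    rw [h]
  have hp : ∀ (s0 s1 s2 : Bool) (a b e : ℂ), (sg s0 * sg s1 * sg s2 : ℂ) * (sg s2 * e *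
      (c 0 * (sg s0 * a) + c 1 * (sg s1 * b) + c 2 * (sg s2 * e))) +
      (d 0 * (sg s0 * (a ^ 2 - e ^ 2)) + d 1 * (sg s1 * (b ^ 2 - e ^ 2)) +
        d 2 * (sg s2 * (e ^ 2 - e ^ 2))) =
      (sg s0 * sg s1 : ℂ) * (e * (n 0 * a + n 1 * b + n 2 * e)) +
      ((sg s0 : ℂ) * ((m 0 0 * a + m 1 0 * b + m 2 0 * e) * a) +
      (sg s1 : ℂ) * ((m 0 1 * a + m 1 1 * b + m 2 1 * e) * b) +
      (sg s2 : ℂ) * ((m 0 2 * a + m 1 2 * b + m 2 2 * e) * e)) + eval ![a, b, e] q := by
    intro s0 s1 s2 a b e
    have h1 := key 1 ![s0, s1, s2] ![a, b, e]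
    rw [eval_kk, eval_psi, Fin.sum_univ_three] at h1
    exact h1
  have c2 : c 2 = 0 := by
    have e0 := hp false false false 0 0 1
    have e1 := hp true false false 0 0 1
    have e2 := hp false true false 0 0 1
    have e3 := hp true true false 0 0 1
    have e4 := hp false false true 0 0 1
    have e5 := hp true false true 0 0 1
    have e6 := hp false true true 0 0 1
    have e7 := hp true true true 0 0 1
    simp [sg] at e0 e1 e2 e3 e4 e5 e6 e7
    linear_combination (e0 - e1 - e2 + e3 - e4 + e5 + e6 - e7) / 8
  have d0 : d 0 = 0 := by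
    have e0 := hp false false false 0 0 1
    have e1 := hp true false false 0 0 1
    have e2 := hp false true false 0 0 1
    have e3 := hp true true false 0 0 1
    have e4 := hp false false true 0 0 1
    have e5 := hp true false true 0 0 1
    have e6 := hp false true true 0 0 1
    have e7 := hp true true true 0 0 1
    simp [sg] at e0 e1 e2 e3 e4 e5 e6 e7
    linear_combination -(e0 - e1 + e2 - e3 + e4 - e5 + e6 - e7) / 8
  have d1 : d 1 = 0 := by
    have e0 := hp false false false 0 0 1
    have e1 := hp true false false 0 0 1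
    have e2 := hp false true false 0 0 1
    have e3 := hp true true false 0 0 1
    have e4 := hp false false true 0 0 1
    have e5 := hp true false true 0 0 1
    have e6 := hp false true true 0 0 1
    have e7 := hp true true true 0 0 1
    simp [sg] at e0 e1 e2 e3 e4 e5 e6 e7
    linear_combination -(e0 + e1 - e2 - e3 + e4 + e5 - e6 - e7) / 8
  have c0 : c 0 = 0 := by
    have e0 := hp false false false 1 0 1
    have e1 := hp true false false 1 0 1
    have e2 := hp false true false 1 0 1
    have e3 := hp true true false 1 0 1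
    have e4 := hp false false true 1 0 1
    have e5 := hp true false true 1 0 1
    have e6 := hp false true true 1 0 1
    have e7 := hp true true true 1 0 1
    simp [sg] at e0 e1 e2 e3 e4 e5 e6 e7
    linear_combination (e0 + e1 - e2 - e3 + e4 + e5 - e6 - e7) / 8 + d1
  have c1 : c 1 = 0 := by
    have e0 := hp false false false 0 1 1
    have e1 := hp true false false 0 1 1
    have e2 := hp false true false 0 1 1
    have e3 := hp true true false 0 1 1
    have e4 := hp false false true 0 1 1
    have e5 := hp true false true 0 1 1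
    have e6 := hp false true true 0 1 1
    have e7 := hp true true true 0 1 1
    simp [sg] at e0 e1 e2 e3 e4 e5 e6 e7
    linear_combination (e0 - e1 + e2 - e3 + e4 - e5 + e6 - e7) / 8 + d0
  have hq : ∀ (s0 s1 : Bool), -(d 2 * sg s0) =
      sg s0 * sg s1 * n 0 + m 0 2 + eval ![1, 0, 0] q := by
    intro s0 s1
    have h1 := key (Equiv.swap 0 2) ![s0, s1, false] ![1, 0, 0]
    rw [eval_kk, eval_psi, Fin.sum_univ_three, c0, c1, c2, d0, d1] at h1
    have hsw : (Equiv.swap (0 : Fin 3) 2) 1 = 1 := by decide
    have hsw2 : (Equiv.swap (0 : Fin 3) 2).symm 2 = 0 := by decide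
    have hf : sg false = 1 := rfl
    simp [hsw, hf] at h1
    exact h1
  have d2 : d 2 = 0 := by
    have e0 := hq false false
    have e1 := hq true false
    have e2 := hq false true
    have e3 := hq true true
    simp [sg] at e0 e1 e2 e3
    linear_combination -(e0 - e1 + e2 - e3) / 4
  constructor
  · funext i
    fin_cases i
    · exact c0
    · exact c1
    · exact c2
  · funext i
    fin_cases i
    · exact d0
    · exact d1
    · exact d2

end Pool.Agent.N347.Hess
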