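import Pool.Agent.N347.Hess.Class

set_option autoImplicit false

namespace Pool.Agent.N347.Hess

open MvPolynomial Module

/-- homogeneous components of splines are splines -/
lemma comp_mem (ρ : W 3 → MvPolynomial (Fin 3) ℂ) (h : ρ ∈ Splines H0) (k : ℕ) :
    (fun v => homogeneousComponent k (ρ v)) ∈ SF k := by
  refine ⟨?_, fun v => homogeneousComponent_isHomogeneous _ _⟩
  intro a b hab w
  have h1 := h a b hab w
  rw [Ideal.mem_span_singleton] at h1 ⊢
  obtain ⟨q, hq⟩ := h1
  have hl : (act w (xv a - xv b)).IsHomogeneous 1 :=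
    act_isHomogeneous w ((xv_hom a).sub (xv_hom b))
  show act w (xv a - xv b) ∣ homogeneousComponent k (ρ w) -
    homogeneousComponent k (ρ (w * refl a b))
  rw [← map_sub, hq]
  by_cases hk : 1 ≤ k
  · rw [comp_mul_le hl hk]
    exact dvd_mul_right _ _
  · rw [comp_mul_lt hl hk]
    exact dvd_zero _

/-- every homogeneous polynomial of degree one is a linear form -/
lemma hom_one (p : MvPolynomial (Fin 3) ℂ) (hp : p.IsHomogeneous 1) : ∃ c, p = lf c := by
  let T : (Fin 3 → ℂ) →ₗ[ℂ] homogeneousSubmodule (Fin 3) ℂ 1 :=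
    { toFun := fun c => ⟨lf c, lf_hom c⟩
      map_add' := fun x y => Subtype.ext (lf_add x y)
      map_smul' := fun r x => by
        apply Subtype.ext
        show lf (r • x) = r • lf x
        rw [lf_smul, smul_eq_C_mul] }
  have hT : Function.Injective T := by
    rw [← LinearMap.ker_eq_bot, LinearMap.ker_eq_bot']
    intro c hc
    have h1 : lf c = 0 := congrArg Subtype.val hc
    have key : ∀ x : Fin 3 → ℂ, eval x (lf c) = 0 := by
      intro x; rw [h1]; simp
    have h2 := key ![1, 0, 0]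
    have h3 := key ![0, 1, 0]
    have h4 := key ![0, 0, 1]
    simp [lf, Fin.sum_univ_three] at h2 h3 h4
    funext i
    fin_cases i
    · exact h2
    · exact h3
    · exact h4
  obtain ⟨c, hc⟩ := surj_of_inj T hT
    ((finrank_hom_le 1).trans (by rw [card_Ex1]; simp)) ⟨p, hp⟩
  exact ⟨c, (congrArg Subtype.val hc).symm⟩

/-- the splines of degree two in the ideal -/
noncomputable def kk (m : Fin 3 → Fin 3 → ℂ) (n : Fin 3 → ℂ) (q : MvPolynomial (Fin 3) ℂ)
    (v : W 3) : MvPolynomial (Fin 3) ℂ :=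
  act v (C (dl v : ℂ) * (X 2 * 1)) * lf n + (∑ i, act v (lf (m i)) * X i) + q

lemma kk_add (m m' : Fin 3 → Fin 3 → ℂ) (n n' : Fin 3 → ℂ) (q q' : MvPolynomial (Fin 3) ℂ)
    (v : W 3) : kk (m + m') (n + n') (q + q') v = kk m n q v + kk m' n' q' v := by
  unfold kk
  simp only [Pi.add_apply, lf_add, map_add, add_mul, mul_add, Finset.sum_add_distrib]
  ring

lemma kk_smul (r : ℂ) (m : Fin 3 → Fin 3 → ℂ) (n : Fin 3 → ℂ) (q : MvPolynomial (Fin 3) ℂ)
    (v : W 3) : kk (r • m) (r • n) (C r * q) v = r • kk m n q v := by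
  unfold kk
  rw [smul_eq_C_mul]
  simp only [Pi.smul_apply, lf_smul, map_mul, act, aeval_C, algebraMap_eq, Finset.mul_sum,
    mul_add]
  congr 1
  congr 1
  · ring
  · apply Finset.sum_congr rfl
    intro i _
    ring

lemma kk_zero (v : W 3) : kk 0 0 0 v = 0 := by
  have := kk_smul 0 0 0 0 v
  simpa using this

/-- the set of the functions `kk` -/
def K2 : Set (W 3 → MvPolynomial (Fin 3) ℂ) :=
  {f | ∃ m n q, q.IsHomogeneous 2 ∧ f = kk m n q}

lemma K2_add {f g : W 3 → MvPolynomial (Fin 3) ℂ} (hf : f ∈ K2) (hg : g ∈ K2) :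
    f + g ∈ K2 := by
  obtain ⟨m, n, q, hq, rfl⟩ := hf
  obtain ⟨m', n', q', hq', rfl⟩ := hg
  refine ⟨m + m', n + n', q + q', hq.add hq', ?_⟩
  funext v
  rw [kk_add]
  rfl

lemma K2_zero : (0 : W 3 → MvPolynomial (Fin 3) ℂ) ∈ K2 := by
  refine ⟨0, 0, 0, isHomogeneous_zero _ _ _, ?_⟩
  funext v
  rw [kk_zero]
  rfl

/-- a linear form times a spline of degree one -/
lemma K2_mul (c : Fin 3 → ℂ) (g : W 3 → MvPolynomial (Fin 3) ℂ) (hg : g ∈ SF 1) :
    (fun v => lf c * g v) ∈ K2 := by
  obtain ⟨a, e, b, rfl⟩ := SF1_class g hg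
  refine ⟨fun i => c i • a, e • c, lf c * lf b, (lf_hom c).mul (lf_hom b), ?_⟩
  funext v
  unfold kk t1
  simp only [lf_smul, map_mul, mul_add, mul_one]
  have h1 : act v (C e) = C e := by simp [act]
  have h2 : ∀ i, act v (C (c i)) = C (c i) := by intro i; simp [act]
  rw [h1]
  simp only [h2]
  have h3 : ∑ i, C (c i) * act v (lf a) * X i = lf c * act v (lf a) := by
    conv_rhs => rw [lf]
    rw [Finset.sum_mul]
    apply Finset.sum_congr rfl
    intro i _
    ring
  rw [h3]
  ring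

lemma K2_smul (r : ℂ) {f : W 3 → MvPolynomial (Fin 3) ℂ} (hf : f ∈ K2) : r • f ∈ K2 := by
  obtain ⟨m, n, q, hq, rfl⟩ := hf
  refine ⟨r • m, r • n, C r * q, ?_, ?_⟩
  · have := (isHomogeneous_C (Fin 3) r).mul hq
    simpa using this
  · funext v
    rw [kk_smul]
    rfl

lemma K2_gen (d : ℕ) (p : MvPolynomial (Fin 3) ℂ) (σ : W 3 → MvPolynomial (Fin 3) ℂ)
    (hd : 0 < d) (hp : p.IsHomogeneous d) (hσ : σ ∈ Splines H0) :
    (fun v => homogeneousComponent 2 (p * σ v)) ∈ K2 := by
  by_cases h2 : d ≤ 2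
  · have e2 : (fun v => homogeneousComponent 2 (p * σ v)) =
        fun v => p * homogeneousComponent (2 - d) (σ v) := by
      funext v
      exact comp_mul_le hp h2
    rw [e2]
    have h3 : d = 1 ∨ d = 2 := by omega
    rcases h3 with rfl | rfl
    · obtain ⟨a, rfl⟩ := hom_one p hp
      exact K2_mul a _ (comp_mem σ hσ 1)
    · obtain ⟨c0, hc0⟩ := SF0_const _ (comp_mem σ hσ 0)
      refine ⟨0, 0, p * C c0, ?_, ?_⟩
      · have := hp.mul (isHomogeneous_C (Fin 3) c0)
        simpa using this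
      · funext v
        have h4 : homogeneousComponent 0 (σ v) = C c0 := congrFun hc0 v
        rw [show 2 - 2 = 0 from rfl, h4]
        have h5 := kk_zero v
        unfold kk at h5 ⊢
        rw [add_zero] at h5
        rw [h5, zero_add]
  · have e2 : (fun v => homogeneousComponent 2 (p * σ v)) = 0 := by
      funext v
      exact comp_mul_lt hp h2
    rw [e2]
    exact K2_zero

lemma ideal_comp (f : Fun 3) (hf : f ∈ constIdeal H0) :
    (fun v : W 3 => homogeneousComponent 2 (f v)) ∈ K2 := by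
  refine Submodule.span_induction (p := fun f _ =>
    (fun v : W 3 => homogeneousComponent 2 (f v)) ∈ K2) ?_ ?_ ?_ ?_ hf
  · rintro f ⟨d, p, σ, hd, hp, hσ, rfl⟩
    exact K2_gen d p σ hd hp ((isSpline_iff H0 σ).1 hσ)
  · have e : (fun v : W 3 => homogeneousComponent 2 ((0 : Fun 3) v)) = 0 := by
      funext v
      show homogeneousComponent 2 (0 : MvPolynomial (Fin 3) ℂ) = 0
      rw [map_zero]
    rw [e]
    exact K2_zero
  · intro x y _ _ hx hy
    have e : (fun v : W 3 => homogeneousComponent 2 ((x + y) v)) =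
        (fun v => homogeneousComponent 2 (x v)) + (fun v => homogeneousComponent 2 (y v)) := by
      funext v
      show homogeneousComponent 2 (x v + y v) = _
      rw [map_add]
      rfl
    rw [e]
    exact K2_add hx hy
  · intro r x _ hx
    have e : (fun v : W 3 => homogeneousComponent 2 ((r • x) v)) =
        r • (fun v => homogeneousComponent 2 (x v)) := by
      funext v
      show homogeneousComponent 2 (r • x v) = _
      rw [map_smul]
      rfl
    rw [e]
    exact K2_smul r hx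

/-- the degree two elements of the ideal -/
lemma ideal_two (f : Fun 3) (hf : f ∈ constIdeal H0) (h : ∀ v, (f v).IsHomogeneous 2) :
    (f : W 3 → MvPolynomial (Fin 3) ℂ) ∈ K2 := by
  have h1 := ideal_comp f hf
  have e : (fun v : W 3 => homogeneousComponent 2 (f v)) = f := by
    funext v
    exact homogeneousComponent_eq_self (h v)
  rwa [e] at h1

lemma kk_hom (m : Fin 3 → Fin 3 → ℂ) (n : Fin 3 → ℂ) (q : MvPolynomial (Fin 3) ℂ)
    (hq : q.IsHomogeneous 2) (v : W 3) : (kk m n q v).IsHomogeneous 2 := by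
  unfold kk
  refine (IsHomogeneous.add ?_ ?_).add hq
  · refine IsHomogeneous.mul (m := 1) (n := 1) (act_isHomogeneous v ?_) (lf_hom n)
    have := (isHomogeneous_C (Fin 3) (dl v : ℂ)).mul
      ((isHomogeneous_X ℂ (2 : Fin 3)).mul (isHomogeneous_one (Fin 3) ℂ))
    simpa using this
  · apply IsHomogeneous.sum
    intro i _
    exact IsHomogeneous.mul (m := 1) (n := 1) (act_isHomogeneous v (lf_hom _))
      (isHomogeneous_X _ _)

/-- the functions `kk` lie in the ideal -/
lemma kk_ideal (m : Fin 3 → Fin 3 → ℂ) (n : Fin 3 → ℂ) (q : MvPolynomial (Fin 3) ℂ)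
    (hq : q.IsHomogeneous 2) : (kk m n q : Fun 3) ∈ constIdeal H0 := by
  have h1 : ((fun v => lf n * act v (C (dl v : ℂ) * (X 2 * 1))) : Fun 3) ∈ constIdeal H0 :=
    Submodule.subset_span ⟨1, lf n, _, one_pos, lf_hom n, (isSpline_iff H0 _).2 (dl_mem 1), rfl⟩
  have h2 : ∀ i, ((fun v => X i * act v (lf (m i))) : Fun 3) ∈ constIdeal H0 := fun i =>
    Submodule.subset_span ⟨1, X i, _, one_pos, isHomogeneous_X _ _,
      (isSpline_iff H0 _).2 (inv_mem (lf (m i))), rfl⟩
  have h3 : ((fun _ => q * 1) : Fun 3) ∈ constIdeal H0 :=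
    Submodule.subset_span ⟨2, q, fun _ => 1, two_pos, hq, (isSpline_iff H0 _).2 (const_mem 1), rfl⟩
  have e : (kk m n q : Fun 3) = ((fun v => lf n * act v (C (dl v : ℂ) * (X 2 * 1))) : Fun 3) +
      (((fun v => X 0 * act v (lf (m 0))) : Fun 3) + ((fun v => X 1 * act v (lf (m 1))) : Fun 3) +
      ((fun v => X 2 * act v (lf (m 2))) : Fun 3)) + ((fun _ => q * 1) : Fun 3) := by
    funext v
    show kk m n q v = lf n * act v (C (dl v : ℂ) * (X 2 * 1)) + (X 0 * act v (lf (m 0)) +
      X 1 * act v (lf (m 1)) + X 2 * act v (lf (m 2))) + q * 1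
    unfold kk
    rw [Fin.sum_univ_three]
    ring
  rw [e]
  exact add_mem (add_mem h1 (add_mem (add_mem (h2 0) (h2 1)) (h2 2))) h3

/-- the functions `kk` are splines -/
lemma kk_spline (m : Fin 3 → Fin 3 → ℂ) (n : Fin 3 → ℂ) (q : MvPolynomial (Fin 3) ℂ) :
    IsSpline H0 (kk m n q) := by
  rw [isSpline_iff]
  have e : kk m n q = (fun v => act v (C (dl v : ℂ) * (X 2 * 1))) * (fun _ => lf n) +
      ((fun v => act v (lf (m 0))) * (fun _ => X 0) + (fun v => act v (lf (m 1))) * (fun _ => X 1) +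
      (fun v => act v (lf (m 2))) * (fun _ => X 2)) + (fun _ => q) := by
    funext v
    show kk m n q v = act v (C (dl v : ℂ) * (X 2 * 1)) * lf n + (act v (lf (m 0)) * X 0 +
      act v (lf (m 1)) * X 1 + act v (lf (m 2)) * X 2) + q
    unfold kk
    rw [Fin.sum_univ_three]
  rw [e]
  exact add_mem (add_mem (mul_mem (dl_mem 1) (const_mem _)) (add_mem (add_mem
    (mul_mem (inv_mem _) (const_mem _)) (mul_mem (inv_mem _) (const_mem _)))
    (mul_mem (inv_mem _) (const_mem _)))) (const_mem _)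

end Pool.Agent.N347.Hess
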