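import Pool.Agent.N347.Hess.Defs
import Pool.Agent.N347.Hess.Alg

set_option autoImplicit false

namespace Pool.Agent.N347.Hess

open MvPolynomial Module

/-- The Hessenberg space of the example: the matrices in `sp_6(ℂ)` whose entries in the rows
`-1, -2` and the columns `1, 2` vanish. -/
def H0 : Submodule ℂ (Matrix (SInd 3) (SInd 3) ℂ) where
  carrier := {A | A ∈ sp 3 ∧ ∀ i j : Fin 3, i ≠ 2 → j ≠ 2 → A (i, true) (j, false) = 0}
  add_mem' := by
    rintro A B ⟨h1, h2⟩ ⟨h3, h4⟩
    exact ⟨add_mem h1 h3, fun i j hi hj => by simp [h2 i j hi hj, h4 i j hi hj]⟩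
  zero_mem' := ⟨zero_mem _, fun _ _ _ _ => rfl⟩
  smul_mem' := by
    rintro c A ⟨h1, h2⟩
    exact ⟨Submodule.smul_mem _ c h1, fun i j hi hj => by simp [h2 i j hi hj]⟩

lemma sp_lie {n : ℕ} {A B : Matrix (SInd n) (SInd n) ℂ} (hA : A ∈ sp n) (hB : B ∈ sp n) :
    A * B - B * A ∈ sp n := by
  have hA' : A.transpose * gram n = -(gram n * A) := eq_neg_of_add_eq_zero_left hA
  have hB' : B.transpose * gram n = -(gram n * B) := eq_neg_of_add_eq_zero_left hB
  show (A * B - B * A).transpose * gram n + gram n * (A * B - B * A) = 0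
  rw [Matrix.transpose_sub, Matrix.transpose_mul, Matrix.transpose_mul, sub_mul, mul_assoc, hA',
    mul_assoc, hB', mul_neg, mul_neg, ← mul_assoc, ← mul_assoc, hA', hB']
  simp only [mul_sub, neg_mul, mul_assoc]
  abel

lemma pos_true_lt (i : Fin 3) (c : SInd 3) (h : ¬ pos c < pos ((i, true) : SInd 3)) :
    ∃ j : Fin 3, c = (j, true) ∧ j ≤ i := by
  obtain ⟨j, b⟩ := c
  cases b
  · exfalso
    apply h
    fin_cases i <;> fin_cases j <;> decide
  · refine ⟨j, rfl, ?_⟩
    revert h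
    fin_cases i <;> fin_cases j <;> decide

lemma pos_false_lt (j : Fin 3) (c : SInd 3) (h : ¬ pos ((j, false) : SInd 3) < pos c) :
    ∃ i : Fin 3, c = (i, false) ∧ i ≤ j := by
  obtain ⟨i, b⟩ := c
  cases b
  · refine ⟨i, rfl, ?_⟩
    revert h
    fin_cases i <;> fin_cases j <;> decide
  · exfalso
    apply h
    fin_cases i <;> fin_cases j <;> decide

lemma ne_two_of_le {i j : Fin 3} (h : j ≤ i) (hi : i ≠ 2) : j ≠ 2 := by
  revert h hi
  fin_cases i <;> fin_cases j <;> decide

lemma H0_hess : IsHessenberg H0 where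
  borel_le := by
    rintro A ⟨h1, h2⟩
    refine ⟨h1, fun i j hi hj => h2 _ _ ?_⟩
    fin_cases i <;> fin_cases j <;> decide
  le_sp := fun A hA => hA.1
  stable := by
    rintro A ⟨hA1, hA2⟩ B ⟨hB1, hB2⟩
    refine ⟨sp_lie hA1 hB1, fun i j hi hj => ?_⟩
    rw [Matrix.sub_apply, Matrix.mul_apply, Matrix.mul_apply, Finset.sum_eq_zero,
      Finset.sum_eq_zero, sub_zero]
    · intro c _
      by_cases hc : pos ((j, false) : SInd 3) < pos c
      · rw [hA2 _ _ hc, mul_zero]
      · obtain ⟨k, rfl, hk⟩ := pos_false_lt j c hc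
        rw [hB2 i k hi (ne_two_of_le hk hj), zero_mul]
    · intro c _
      by_cases hc : pos c < pos ((i, true) : SInd 3)
      · rw [hA2 _ _ hc, zero_mul]
      · obtain ⟨k, rfl, hk⟩ := pos_true_lt i c hc
        rw [hB2 k j (ne_two_of_le hk hi) hj, mul_zero]

/-- The excluded roots `e_i + e_j` with `i, j ∈ {1, 2}`. -/
def Bad (a b : SInd 3) : Prop := a.1 ≠ 2 ∧ b.1 ≠ 2 ∧ a.2 = false ∧ b.2 = true

instance (a b : SInd 3) : Decidable (Bad a b) := by unfold Bad; infer_instance

/-- integer version of the weights -/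
def wt (k : Fin 3) (a : SInd 3) : ℤ := if a.1 = k then (if a.2 then -1 else 1) else 0

lemma tor_wt (k : Fin 3) (a : SInd 3) :
    tor (fun i => if i = k then (1 : ℂ) else 0) a = (wt k a : ℂ) := by
  obtain ⟨i, b⟩ := a
  unfold tor wt
  by_cases h : i = k <;> cases b <;> simp [h]

lemma wt_fact : ∀ a b : SInd 3, ∀ i j : Fin 3, i ≠ 2 → j ≠ 2 → pos a < pos b → ¬ Bad a b →
    ∃ k, wt k ((i, true) : SInd 3) - wt k ((j, false) : SInd 3) ≠ wt k b - wt k a := by
  decide

lemma rootOf_of_not_bad {a b : SInd 3} (h : pos a < pos b) (hb : ¬ Bad a b) :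
    RootOf H0 a b := by
  refine ⟨h, ?_⟩
  rintro A ⟨h1, h2⟩
  refine ⟨h1, fun i j hi hj => ?_⟩
  obtain ⟨k, hk⟩ := wt_fact a b i j hi hj h hb
  have h3 := congrFun (congrFun (h2 (fun i => if i = k then (1 : ℂ) else 0)) (i, true)) (j, false)
  rw [Matrix.sub_apply, Matrix.diagonal_mul, Matrix.mul_diagonal, Matrix.smul_apply] at h3
  simp only [tor_wt, smul_eq_mul] at h3
  by_contra hne
  apply hk
  have h4 : ((wt k ((i, true) : SInd 3) : ℂ) - wt k ((j, false) : SInd 3) -
      (wt k b - wt k a)) * A (i, true) (j, false) = 0 := by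
    linear_combination h3
  rcases mul_eq_zero.1 h4 with h5 | h5
  · have h6 : ((wt k ((i, true) : SInd 3) : ℂ) - wt k ((j, false) : SInd 3)) =
        ((wt k b - wt k a)) := by linear_combination h5
    exact_mod_cast h6
  · exact absurd h5 hne

/-- a root vector for `-(e_i + e_j)` -/
def rvec (i j : Fin 3) : Matrix (SInd 3) (SInd 3) ℂ := fun r c =>
  if (r = (j, true) ∧ c = (i, false)) ∨ (r = (i, true) ∧ c = (j, false)) then 1 else 0

lemma rvec_sp (i j : Fin 3) : rvec i j ∈ sp 3 := by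
  show (rvec i j).transpose * gram 3 + gram 3 * rvec i j = 0
  ext r c
  obtain ⟨r, b⟩ := r
  obtain ⟨c, e⟩ := c
  rw [Matrix.add_apply, Matrix.mul_apply, Matrix.mul_apply]
  rw [Finset.sum_eq_single (opp (c, e)), Finset.sum_eq_single (opp (r, b))]
  · simp only [Matrix.transpose_apply, rvec, gram, opp, Matrix.zero_apply]
    cases b <;> cases e <;> simp
    by_cases h1 : c = j <;> by_cases h2 : r = i <;> by_cases h3 : c = i <;> by_cases h4 : r = j <;>
      simp [h1, h2, h3, h4]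

  · intro x _ hx
    simp only [gram]
    rw [if_neg hx, zero_mul]
  · simp
  · intro x _ hx
    simp only [gram]
    rw [if_neg, mul_zero]
    intro h
    apply hx
    rw [h, opp_opp]
  · simp

lemma rvec_root (i j : Fin 3) : rvec i j ∈ rootSpace ((j, true) : SInd 3) (i, false) := by
  refine ⟨rvec_sp i j, fun z => ?_⟩
  ext r c
  rw [Matrix.sub_apply, Matrix.diagonal_mul, Matrix.mul_diagonal, Matrix.smul_apply]
  unfold rvec
  split_ifs with h
  · rcases h with ⟨rfl, rfl⟩ | ⟨rfl, rfl⟩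
    · simp
    · simp [tor]; ring
  · simp

lemma not_bad_of_rootOf {a b : SInd 3} (h : RootOf H0 a b) : pos a < pos b ∧ ¬ Bad a b := by
  refine ⟨h.1, ?_⟩
  rintro ⟨h1, h2, h3, h4⟩
  obtain ⟨i, x⟩ := a
  obtain ⟨j, y⟩ := b
  simp only at h1 h2 h3 h4
  subst h3 h4
  have h5 := (h.2 (rvec_root i j)).2 j i h2 h1
  simp [rvec] at h5

/-- the six roots of the example -/
def rt : Fin 6 → SInd 3 × SInd 3 :=
  ![((0, false), (1, false)), ((0, false), (2, false)), ((0, false), (2, true)),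
    ((1, false), (2, false)), ((1, false), (2, true)), ((2, false), (2, true))]

lemma rt_root (k : Fin 6) : RootOf H0 (rt k).1 (rt k).2 := by
  apply rootOf_of_not_bad
  · revert k; decide
  · revert k; decide

lemma root_cases : ∀ a b : SInd 3, pos a < pos b → ¬ Bad a b →
    (∃ k, a = (rt k).1 ∧ b = (rt k).2) ∨ (∃ k, a = opp (rt k).2 ∧ b = opp (rt k).1) := by
  decide

end Pool.Agent.N347.Hess
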