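import Pool.Agent.N347.Hess.Root

set_option autoImplicit false

namespace Pool.Agent.N347.Hess

open MvPolynomial Module

/-- The spline ring `𝒮(H)`: the functions `ρ : W → ℂ[x_1, …, x_n]` with
`ρ(w) - ρ(w s_α) ∈ ⟨w(α)⟩` for every positive root `α = x_a - x_b` with `g_{-α} ⊆ H`. -/
noncomputable def Splines {n : ℕ} (H : Submodule ℂ (Matrix (SInd n) (SInd n) ℂ)) :
    Subalgebra ℂ (W n → MvPolynomial (Fin n) ℂ) where
  carrier := {ρ | ∀ a b, RootOf H a b → ∀ w,
    ρ w - ρ (w * refl a b) ∈ Ideal.span {act w (xv a - xv b)}}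
  mul_mem' := by
    intro ρ σ hρ hσ a b hab w
    have h : (ρ * σ) w - (ρ * σ) (w * refl a b) =
        (ρ w - ρ (w * refl a b)) * σ w + ρ (w * refl a b) * (σ w - σ (w * refl a b)) := by
      simp only [Pi.mul_apply]; ring
    rw [h]
    exact add_mem (Ideal.mul_mem_right _ _ (hρ a b hab w)) (Ideal.mul_mem_left _ _ (hσ a b hab w))
  add_mem' := by
    intro ρ σ hρ hσ a b hab w
    have h : (ρ + σ) w - (ρ + σ) (w * refl a b) =
        (ρ w - ρ (w * refl a b)) + (σ w - σ (w * refl a b)) := by
      simp only [Pi.add_apply]; ring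
    rw [h]
    exact add_mem (hρ a b hab w) (hσ a b hab w)
  algebraMap_mem' := by
    intro r a b _ w
    simp

lemma isSpline_iff {n : ℕ} (H : Submodule ℂ (Matrix (SInd n) (SInd n) ℂ))
    (ρ : W n → MvPolynomial (Fin n) ℂ) : IsSpline H ρ ↔ ρ ∈ Splines H := by
  constructor
  · intro h a b hab w
    rw [Ideal.mem_span_singleton]
    exact h a b hab w
  · intro h a b hab w
    have h1 := h a b hab w
    rw [Ideal.mem_span_singleton] at h1
    exact h1

lemma xv_opp {n : ℕ} (a : SInd n) : xv (opp a) = -xv a := by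
  obtain ⟨i, b⟩ := a
  cases b <;> simp [xv, opp]

lemma xv_hom {n : ℕ} (a : SInd n) : (xv a).IsHomogeneous 1 := by
  unfold xv
  split_ifs
  · exact (isHomogeneous_X _ _).neg
  · exact isHomogeneous_X _ _

lemma refl_apply {n : ℕ} (a b c : SInd n) : (refl a b).1 c = if c = a then b else if c = b then a
    else if c = opp a then opp b else if c = opp b then opp a else c := rfl

lemma refl_mul_self {n : ℕ} (a b : SInd n) : refl a b * refl a b = 1 := by
  apply Subtype.ext
  apply Equiv.ext
  intro c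
  exact (refl a b).1.left_inv c

lemma refl_inv {n : ℕ} (a b : SInd n) : (refl a b)⁻¹ = refl a b :=
  inv_eq_of_mul_eq_one_left (refl_mul_self a b)

lemma refl_opp (a b : SInd 3) : refl (opp b) (opp a) = refl a b := by
  apply Subtype.ext
  apply Equiv.ext
  intro c
  revert a b c
  decide

lemma sub_act_dvd {n : ℕ} (a b : SInd n) (q : MvPolynomial (Fin n) ℂ) :
    (xv a - xv b) ∣ q - act (refl a b) q := by
  rw [← Ideal.mem_span_singleton, ← Ideal.Quotient.eq]
  set I : Ideal (MvPolynomial (Fin n) ℂ) := Ideal.span {xv a - xv b}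
  have hab : Ideal.Quotient.mk I (xv a) = Ideal.Quotient.mk I (xv b) := by
    rw [Ideal.Quotient.eq]
    exact Ideal.subset_span rfl
  have h : (Ideal.Quotient.mkₐ ℂ I) = (Ideal.Quotient.mkₐ ℂ I).comp (act (refl a b)) := by
    apply MvPolynomial.algHom_ext
    intro i
    rw [AlgHom.comp_apply]
    have e1 : act (refl a b) (X i) = xv ((refl a b).1 (i, false)) := by simp [act]
    have e2 : (X i : MvPolynomial (Fin n) ℂ) = xv ((i, false) : SInd n) := by simp [xv]
    rw [e1, refl_apply]
    split_ifs with h1 h2 h3 h4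
    · rw [e2, h1]
      exact hab
    · rw [e2, h2]
      exact hab.symm
    · rw [e2, h3, xv_opp, xv_opp, map_neg, map_neg]
      congr 1
    · rw [e2, h4, xv_opp, xv_opp, map_neg, map_neg]
      congr 1
      exact hab.symm
    · rw [← e2]
  exact DFunLike.congr_fun h q

/-- membership in the spline ring in terms of `F(v) = v⁻¹ ρ(v)` -/
lemma mem_splines (F : W 3 → MvPolynomial (Fin 3) ℂ)
    (h : ∀ k v, (xv (rt k).1 - xv (rt k).2) ∣ F v - F (v * refl (rt k).1 (rt k).2)) :
    (fun v => act v (F v)) ∈ Splines H0 := by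
  have key : ∀ a b, (∀ v, (xv a - xv b) ∣ F v - F (v * refl a b)) → ∀ v,
      act v (xv a - xv b) ∣ act v (F v) - act (v * refl a b) (F (v * refl a b)) := by
    intro a b hab v
    rw [act_mul, AlgHom.comp_apply, ← map_sub (act v)]
    apply map_dvd
    have e : F v - act (refl a b) (F (v * refl a b)) = (F v - F (v * refl a b)) +
        (F (v * refl a b) - act (refl a b) (F (v * refl a b))) := by ring
    rw [e]
    exact dvd_add (hab v) (sub_act_dvd a b _)
  intro a b hab v
  rw [Ideal.mem_span_singleton]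
  obtain ⟨h1, h2⟩ := not_bad_of_rootOf hab
  rcases root_cases a b h1 h2 with ⟨k, rfl, rfl⟩ | ⟨k, rfl, rfl⟩
  · exact key _ _ (h k) v
  · apply key
    intro v
    rw [refl_opp, xv_opp, xv_opp]
    have e : -xv (rt k).2 - -xv (rt k).1 = xv (rt k).1 - xv (rt k).2 := by ring
    rw [e]
    exact h k v

/-- the space of the splines of the example with values of degree `k` -/
noncomputable def SF (k : ℕ) : Submodule ℂ (W 3 → MvPolynomial (Fin 3) ℂ) where
  carrier := {ρ | ρ ∈ Splines H0 ∧ ∀ v, (ρ v).IsHomogeneous k}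
  add_mem' := fun h1 h2 => ⟨add_mem h1.1 h2.1, fun v => (h1.2 v).add (h2.2 v)⟩
  zero_mem' := ⟨zero_mem _, fun v => isHomogeneous_zero _ _ _⟩
  smul_mem' := fun c ρ h => ⟨(Splines H0).smul_mem h.1 c, fun v =>
    (homogeneousSubmodule (Fin 3) ℂ k).smul_mem c (h.2 v)⟩

instance : Finite (W 3) := by
  unfold W
  infer_instance

instance SF_finite (k : ℕ) : Module.Finite ℂ (SF k) := by
  classical
  have : Fintype (W 3) := Fintype.ofFinite _
  let φ : SF k →ₗ[ℂ] (W 3 → homogeneousSubmodule (Fin 3) ℂ k) :=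
    { toFun := fun ρ v => ⟨ρ.1 v, ρ.2.2 v⟩
      map_add' := fun _ _ => rfl
      map_smul' := fun _ _ => rfl }
  apply Module.Finite.of_injective φ
  intro ρ σ h
  apply Subtype.ext
  funext v
  exact congrArg Subtype.val (congrFun h v)

/-! ### Enumeration of the group -/

/-- the signed permutation with `w(i) = ± σ(i)` -/
def mkW (p : Equiv.Perm (Fin 3) × (Fin 3 → Bool)) : W 3 :=
  ⟨{ toFun := fun a => (p.1 a.1, xor a.2 (p.2 a.1))
     invFun := fun a => (p.1.symm a.1, xor a.2 (p.2 (p.1.symm a.1)))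
     left_inv := by
        rintro ⟨i, b⟩
        simp
     right_inv := by
        rintro ⟨i, b⟩
        simp },
    by
      rintro ⟨i, b⟩
      simp [opp]⟩

lemma mkW_surj : Function.Surjective mkW := by
  intro w
  have hw : ∀ a, w.1 (opp a) = opp (w.1 a) := w.2
  have hinj : Function.Injective fun i : Fin 3 => (w.1 (i, false)).1 := by
    intro i j hij
    simp only at hij
    by_cases h : (w.1 (i, false)).2 = (w.1 (j, false)).2
    · have : w.1 (i, false) = w.1 (j, false) := Prod.ext hij h
      exact congrArg Prod.fst (w.1.injective this)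
    · have : w.1 (i, false) = w.1 (j, true) := by
        have h1 : w.1 (j, true) = opp (w.1 (j, false)) := hw (j, false)
        rw [h1]
        refine Prod.ext hij ?_
        simp only [opp]
        revert h
        cases (w.1 (i, false)).2 <;> cases (w.1 (j, false)).2 <;> simp
      exact congrArg Prod.fst (w.1.injective this)
  refine ⟨(Equiv.ofBijective _ (Finite.injective_iff_bijective.1 hinj),
    fun i => (w.1 (i, false)).2), ?_⟩
  apply Subtype.ext
  apply Equiv.ext
  rintro ⟨i, b⟩
  cases b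
  · show ((w.1 (i, false)).1, xor false (w.1 (i, false)).2) = _
    simp
  · show ((w.1 (i, false)).1, xor true (w.1 (i, false)).2) = _
    rw [show ((i, true) : SInd 3) = opp (i, false) from rfl, hw]
    simp [opp]

/-- a height function -/
def hgt (w : W 3) : ℕ :=
  3 * (if (w.1 (0, false)).2 then 150 + ![100, 10, 1] (w.1 (0, false)).1
    else 150 - ![100, 10, 1] (w.1 (0, false)).1) +
  2 * (if (w.1 (1, false)).2 then 150 + ![100, 10, 1] (w.1 (1, false)).1
    else 150 - ![100, 10, 1] (w.1 (1, false)).1) +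
  1 * (if (w.1 (2, false)).2 then 150 + ![100, 10, 1] (w.1 (2, false)).1
    else 150 - ![100, 10, 1] (w.1 (2, false)).1)

lemma hgt_inj' : ∀ p q : Equiv.Perm (Fin 3) × (Fin 3 → Bool), hgt (mkW p) = hgt (mkW q) →
    p = q := by
  decide +kernel

lemma hgt_inj : Function.Injective hgt := by
  intro v w h
  obtain ⟨p, rfl⟩ := mkW_surj v
  obtain ⟨q, rfl⟩ := mkW_surj w
  rw [hgt_inj' p q h]

/-- the equivalence given by `mkW` -/
noncomputable def eW : Equiv.Perm (Fin 3) × (Fin 3 → Bool) ≃ W 3 :=
  Equiv.ofBijective mkW ⟨fun p q h => hgt_inj' p q (by rw [h]), mkW_surj⟩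

noncomputable instance : Fintype (W 3) := Fintype.ofEquiv _ eW

/-- the roots along which the height decreases -/
def low (w : W 3) : Finset (Fin 6) :=
  Finset.univ.filter fun k => hgt (w * refl (rt k).1 (rt k).2) < hgt w

lemma sum0' : ∑ p : Equiv.Perm (Fin 3) × (Fin 3 → Bool), (if (low (mkW p)).card = 0 then 1 else 0)
    = 1 := by
  decide +kernel

lemma sum1' : ∑ p : Equiv.Perm (Fin 3) × (Fin 3 → Bool), (if (low (mkW p)).card = 1 then 1 else 0)
    = 4 := by
  decide +kernel

lemma sum2' : ∑ p : Equiv.Perm (Fin 3) × (Fin 3 → Bool), (if (low (mkW p)).card = 2 then 1 else 0)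
    = 11 := by
  decide +kernel

end Pool.Agent.N347.Hess
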