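import Pool.Agent.N347.Hess.Indep

set_option autoImplicit false

namespace Pool.Agent.N347.Hess

open MvPolynomial Module

/-- the trace of an involution -/
lemma trace_invol {A : Type*} [AddCommGroup A] [Module ℂ A] [Module.Finite ℂ A]
    (τ : A →ₗ[ℂ] A) (h : ∀ x, τ (τ x) = x) (O : Submodule ℂ A) (hO : ∀ x, x ∈ O ↔ τ x + x = 0) :
    LinearMap.trace ℂ A τ = (finrank ℂ A : ℂ) - 2 * (finrank ℂ O : ℂ) := by
  let P : A →ₗ[ℂ] A := (1 / 2 : ℂ) • (LinearMap.id - τ)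
  have hP : LinearMap.IsProj O P := by
    constructor
    · intro x
      rw [hO]
      show τ ((1 / 2 : ℂ) • (x - τ x)) + (1 / 2 : ℂ) • (x - τ x) = 0
      rw [map_smul, map_sub, h, ← smul_add]
      have : τ x - x + (x - τ x) = 0 := by abel
      rw [this, smul_zero]
    · intro x hx
      rw [hO] at hx
      show (1 / 2 : ℂ) • (x - τ x) = x
      have h1 : τ x = -x := eq_neg_of_add_eq_zero_left hx
      rw [h1, sub_neg_eq_add, ← two_smul ℂ x, smul_smul]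
      norm_num
  have h1 := hP.trace
  have h2 : τ = LinearMap.id - (2 : ℂ) • P := by
    apply LinearMap.ext
    intro x
    show τ x = x - (2 : ℂ) • ((1 / 2 : ℂ) • (x - τ x))
    rw [smul_smul]
    norm_num
  rw [h2, map_sub, map_smul, h1, LinearMap.trace_id, smul_eq_mul]

/-- the dimension of a quotient -/
lemma finrank_quot {M A V : Type*} [AddCommGroup M] [Module ℂ M] [Module.Finite ℂ M]
    [AddCommGroup A] [Module ℂ A] [AddCommGroup V] [Module ℂ V] (π : M →ₗ[ℂ] A)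
    (hπ : Function.Surjective π) (T : V →ₗ[ℂ] M) (hT : ∀ x, T x = 0 → x = 0)
    (hT2 : ∀ x, π (T x) = 0) : finrank ℂ A + finrank ℂ V ≤ finrank ℂ M := by
  have h1 := LinearMap.finrank_range_add_finrank_ker π
  rw [LinearMap.range_eq_top.2 hπ, finrank_top] at h1
  let T' : V →ₗ[ℂ] LinearMap.ker π := T.codRestrict _ hT2
  have hT' : Function.Injective T' := by
    rw [← LinearMap.ker_eq_bot, LinearMap.ker_eq_bot']
    intro x hx
    exact hT x (congrArg Subtype.val hx)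
  have h2 := LinearMap.finrank_le_finrank_of_injective hT'
  omega

/-- a lower bound for the dimension of a subspace -/
lemma finrank_sub_ge {A V : Type*} [AddCommGroup A] [Module ℂ A] [Module.Finite ℂ A]
    [AddCommGroup V] [Module ℂ V] (O : Submodule ℂ A) (T : V →ₗ[ℂ] A)
    (hT : ∀ x, T x = 0 → x = 0) (hT2 : ∀ x, T x ∈ O) : finrank ℂ V ≤ finrank ℂ O := by
  let T' : V →ₗ[ℂ] O := T.codRestrict _ hT2
  have hT' : Function.Injective T' := by
    rw [← LinearMap.ker_eq_bot, LinearMap.ker_eq_bot']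
    intro x hx
    exact hT x (congrArg Subtype.val hx)
  exact LinearMap.finrank_le_finrank_of_injective hT'

/-- the splines of degree two as functions -/
noncomputable def toSF : splineDeg H0 2 →ₗ[ℂ] SF 2 where
  toFun ρ := ⟨ρ.1, (isSpline_iff H0 ρ.1).1 ρ.2.1, ρ.2.2⟩
  map_add' _ _ := rfl
  map_smul' _ _ := rfl

lemma toSF_inj : Function.Injective toSF := by
  intro ρ σ h
  exact Subtype.ext (congrArg (fun z : SF 2 => z.1) h)

instance hs_finite : Module.Finite ℂ (splineDeg H0 2) := Module.Finite.of_injective toSF toSF_inj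

lemma finrank_hs : finrank ℂ (splineDeg H0 2) ≤ 29 :=
  (LinearMap.finrank_le_finrank_of_injective toSF_inj).trans finrank_SF2

/-- the projection -/
noncomputable def pr : splineDeg H0 2 →ₗ[ℂ] LQ H0 2 := (rel H0 2).mkQ

lemma pr_surj : Function.Surjective pr := Submodule.mkQ_surjective _

lemma pr_eq_zero (ρ : splineDeg H0 2) : pr ρ = 0 ↔ ρ.1 ∈ constIdeal H0 :=
  Submodule.Quotient.mk_eq_zero (rel H0 2)

instance piece_finite : Module.Finite ℂ (LQ H0 2) := Module.Finite.of_surjective pr pr_surj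

lemma kk_add_fun (m m' : Fin 3 → Fin 3 → ℂ) (n n' : Fin 3 → ℂ) (r r' : Fin 6 → ℂ) :
    kk (m + m') (n + n') (qf (r + r')) = kk m n (qf r) + kk m' n' (qf r') := by
  funext v
  rw [qf_add, kk_add]
  rfl

lemma kk_smul_fun (c : ℂ) (m : Fin 3 → Fin 3 → ℂ) (n : Fin 3 → ℂ) (r : Fin 6 → ℂ) :
    kk (c • m) (c • n) (qf (c • r)) = c • kk m n (qf r) := by
  funext v
  rw [qf_smul, kk_smul]
  rfl

lemma act_ng_twice (ρ : W 3 → MvPolynomial (Fin 3) ℂ) (v : W 3) :
    act ng (act ng (ρ (ng⁻¹ * (ng⁻¹ * v)))) = ρ v := by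
  rw [← AlgHom.comp_apply, ← act_mul, ng_mul_self, act_one, ng_inv, ← mul_assoc, ng_mul_self,
    one_mul]
  rfl

lemma act_ng_psi (c d : Fin 3 → ℂ) (v : W 3) :
    act ng (psi c d (ng⁻¹ * v)) + psi c d v = 0 := by
  unfold psi
  rw [← AlgHom.comp_apply, ← act_mul, mul_inv_cancel_left, ng_inv, pf_ng, map_neg,
    neg_add_cancel]

/-- the degree two part of the ideal -/
noncomputable def TK : ((Fin 3 → Fin 3 → ℂ) × (Fin 3 → ℂ) × (Fin 6 → ℂ)) →ₗ[ℂ]
    splineDeg H0 2 where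
  toFun c := ⟨kk c.1 c.2.1 (qf c.2.2), kk_spline _ _ _, fun v => kk_hom _ _ _ (qf_hom _) v⟩
  map_add' x y := Subtype.ext (kk_add_fun x.1 y.1 x.2.1 y.2.1 x.2.2 y.2.2)
  map_smul' r x := Subtype.ext (kk_smul_fun r x.1 x.2.1 x.2.2)

lemma TK_inj (x : (Fin 3 → Fin 3 → ℂ) × (Fin 3 → ℂ) × (Fin 6 → ℂ)) (hx : TK x = 0) : x = 0 := by
  obtain ⟨m, n, r⟩ := x
  have h0 : kk m n (qf r) = 0 := congrArg (fun z : splineDeg H0 2 => z.1) hx
  obtain ⟨h1, h2, h3⟩ := kk_inj m n r h0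
  subst h1 h2 h3
  rfl

lemma TK_ker (x : (Fin 3 → Fin 3 → ℂ) × (Fin 3 → ℂ) × (Fin 6 → ℂ)) : pr (TK x) = 0 :=
  (pr_eq_zero _).2 (kk_ideal x.1 x.2.1 (qf x.2.2) (qf_hom _))

lemma finrank_piece : finrank ℂ (LQ H0 2) ≤ 11 := by
  have h1 := finrank_quot (M := splineDeg H0 2) (A := LQ H0 2)
    (V := (Fin 3 → Fin 3 → ℂ) × (Fin 3 → ℂ) × (Fin 6 → ℂ)) pr pr_surj TK TK_inj TK_ker
  have h2 := finrank_hs
  have h3 : finrank ℂ ((Fin 3 → Fin 3 → ℂ) × (Fin 3 → ℂ) × (Fin 6 → ℂ)) = 18 := by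
    rw [finrank_prod, finrank_prod, finrank_pi_fintype]
    simp
  rw [h3] at h1
  omega

/-- the element `-1` of the group -/
def ngS : SW 3 := ng

/-- the action of `-1` -/
noncomputable def tau : LQ H0 2 →ₗ[ℂ] LQ H0 2 := dotLQ H0 2 ngS

lemma tau_pr (ρ : splineDeg H0 2) : tau (pr ρ) = pr (dotDeg H0 2 ngS ρ) := rfl

lemma dot_dot (ρ : splineDeg H0 2) : dotDeg H0 2 ngS (dotDeg H0 2 ngS ρ) = ρ := by
  apply Subtype.ext
  funext v
  exact act_ng_twice ρ.1 v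

lemma tau_tau (x : LQ H0 2) : tau (tau x) = x := by
  obtain ⟨ρ, rfl⟩ := pr_surj x
  rw [tau_pr, tau_pr, dot_dot]

/-- the part on which `-1` acts by `-1` -/
noncomputable def odd : Submodule ℂ (LQ H0 2) := LinearMap.ker (tau + LinearMap.id)

lemma mem_odd (x : LQ H0 2) : x ∈ odd ↔ tau x + x = 0 := Iff.rfl

/-- the six odd splines in the spline ring -/
noncomputable def psiS (c d : Fin 3 → ℂ) : splineDeg H0 2 :=
  ⟨psi c d, (isSpline_iff H0 _).2 (psi_mem c d), psi_hom c d⟩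

lemma dot_psi (c d : Fin 3 → ℂ) : dotDeg H0 2 ngS (psiS c d) + psiS c d = 0 := by
  apply Subtype.ext
  funext v
  exact act_ng_psi c d v

/-- the map given by the six odd splines -/
noncomputable def TP : ((Fin 3 → ℂ) × (Fin 3 → ℂ)) →ₗ[ℂ] splineDeg H0 2 where
  toFun c := psiS c.1 c.2
  map_add' _ _ := Subtype.ext (psi_add _ _ _ _)
  map_smul' _ _ := Subtype.ext (psi_smul _ _ _)

lemma TP_odd (x : (Fin 3 → ℂ) × (Fin 3 → ℂ)) : (pr.comp TP) x ∈ odd := by
  rw [mem_odd]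
  show tau (pr (psiS x.1 x.2)) + pr (psiS x.1 x.2) = 0
  rw [tau_pr, ← map_add, dot_psi, map_zero]

lemma TP_inj (x : (Fin 3 → ℂ) × (Fin 3 → ℂ)) (hx : (pr.comp TP) x = 0) : x = 0 := by
  obtain ⟨c, d⟩ := x
  have h0 : pr (psiS c d) = 0 := hx
  rw [pr_eq_zero] at h0
  obtain ⟨h1, h2⟩ := psi_inj c d (ideal_two _ h0 (psi_hom c d))
  subst h1 h2
  rfl

lemma finrank_odd : 6 ≤ finrank ℂ odd := by
  have h := finrank_sub_ge odd (pr.comp TP) TP_inj TP_odd
  have h3 : finrank ℂ ((Fin 3 → ℂ) × (Fin 3 → ℂ)) = 6 := by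
    rw [finrank_prod]
    simp
  rw [h3] at h
  exact h

lemma trace_tau : LinearMap.trace ℂ (LQ H0 2) tau =
    (finrank ℂ (LQ H0 2) : ℂ) - 2 * (finrank ℂ odd : ℂ) :=
  trace_invol tau tau_tau odd mem_odd

/-- the character value at `-1` is a negative integer -/
theorem main : ∃ N : ℤ, N < 0 ∧ L H0 2 ngS = (N : ℂ) := by
  refine ⟨(finrank ℂ (LQ H0 2) : ℤ) - 2 * (finrank ℂ odd : ℤ), ?_, ?_⟩
  · have h1 := finrank_piece
    have h2 := finrank_odd
    omega
  · have h := trace_tau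
    show LinearMap.trace ℂ (LQ H0 2) tau = _
    rw [h]
    push_cast
    rfl

end Pool.Agent.N347.Hess
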